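import Mathlib

set_option autoImplicit false

namespace Pool.Agent.Lib.MP_57045c_lc

/-- The candidate side of an election: `k` issues and, for each issue, a nonempty finite set of
candidates with a fixed linear order (ties are won by the smaller candidate). -/
structure Frame where
  k : ℕ
  C : Fin k → Type
  [fin : ∀ i, Fintype (C i)]
  [ord : ∀ i, LinearOrder (C i)]
  [ne : ∀ i, Nonempty (C i)]

attribute [instance] Frame.fin Frame.ord Frame.ne

/-- Approval ballots of `n` voters: `A i v` is the set of candidates of issue `i` that voter `v`
approves. -/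
abbrev Ballots (F : Frame) (n : ℕ) := ∀ i : Fin F.k, Fin n → Set (F.C i)

/-- The OWA score of a satisfaction vector `x`: the scalar product of the weights with the
vector `x` sorted increasingly. -/
noncomputable def owaScore {n : ℕ} (a : Fin n → ℝ) (x : Fin n → ℕ) : ℝ :=
  ∑ j, a j * (x (Tuple.sort x j) : ℝ)

open Classical in
/-- The satisfactions after candidate `c` is added to satisfactions `x`; `P v` is the set of
candidates of the issue at hand that voter `v` approves. -/
noncomputable def addCand {C : Type} {n : ℕ} (P : Fin n → Set C) (x : Fin n → ℕ) (c : C) :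
    Fin n → ℕ :=
  fun v => x v + if c ∈ P v then 1 else 0

open Classical in
/-- The candidates that maximise the OWA score, given satisfactions `x`. -/
noncomputable def maximisers {C : Type} [Fintype C] {n : ℕ} (a : Fin n → ℝ) (P : Fin n → Set C)
    (x : Fin n → ℕ) : Finset C :=
  Finset.univ.filter fun c => ∀ c', owaScore a (addCand P x c') ≤ owaScore a (addCand P x c)

theorem maximisers_nonempty {C : Type} [Fintype C] [Nonempty C] {n : ℕ} (a : Fin n → ℝ)
    (P : Fin n → Set C) (x : Fin n → ℕ) : (maximisers a P x).Nonempty := by
  obtain ⟨c, hc⟩ := Finite.exists_max (fun c => owaScore a (addCand P x c))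
  exact ⟨c, by simp [maximisers, hc]⟩

/-- The winner of an issue, given satisfactions `x`: the maximiser of the OWA score that comes
first in the tie-breaking order. -/
noncomputable def winner {C : Type} [Fintype C] [LinearOrder C] [Nonempty C] {n : ℕ}
    (a : Fin n → ℝ) (P : Fin n → Set C) (x : Fin n → ℕ) : C :=
  (maximisers a P x).min' (maximisers_nonempty a P x)

/-- The satisfactions under the partial outcome chosen by the sequential OWA rule on the first
`j` issues. -/
noncomputable def partialSat {F : Frame} {n : ℕ} (a : Fin n → ℝ) (A : Ballots F n) :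
    ℕ → Fin n → ℕ
  | 0 => fun _ => 0
  | j + 1 =>
    if h : j < F.k then
      addCand (A ⟨j, h⟩) (partialSat a A j) (winner a (A ⟨j, h⟩) (partialSat a A j))
    else partialSat a A j

/-- The outcome of the sequential OWA rule. -/
noncomputable def outcome {F : Frame} {n : ℕ} (a : Fin n → ℝ) (A : Ballots F n) (i : Fin F.k) :
    F.C i :=
  winner a (A i) (partialSat a A i)

open Classical in
/-- The satisfaction of voter `v` with outcome `w` under the ballots `A`. -/
noncomputable def sat {F : Frame} {n : ℕ} (A : Ballots F n) (v : Fin n) (w : ∀ i, F.C i) : ℕ :=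
  (Finset.univ.filter fun i => w i ∈ A i v).card

/-- Voter `v` free-rides on issue `i` by changing her ballot there (`A` are the true ballots, `B`
the reported ones), and this is harmful for her. -/
def HarmfulFreeRiding {F : Frame} {n : ℕ} (a : Fin n → ℝ) (A B : Ballots F n) (v : Fin n)
    (i : Fin F.k) : Prop :=
  (∀ j u, (j ≠ i ∨ u ≠ v) → B j u = A j u) ∧
  outcome a A i ∈ A i v ∧ outcome a A i ∉ B i v ∧ outcome a B i = outcome a A i ∧
  sat A v (outcome a B) < sat A v (outcome a A)

/-- Free-riding is never harmful in elections with `n` voters under the weights `a`. -/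
def NeverHarmfulFor (n : ℕ) (a : Fin n → ℝ) : Prop :=
  ∀ (F : Frame) (A B : Ballots F n) (v : Fin n) (i : Fin F.k), ¬ HarmfulFreeRiding a A B v i

/-- An OWA rule: for every number `n` of voters a nonnegative weight vector with positive first
entry. -/
structure OWARule where
  weight : (n : ℕ) → Fin n → ℝ
  pos : ∀ (n : ℕ) (hn : 0 < n), 0 < weight n ⟨0, hn⟩
  nonneg : ∀ n j, 0 ≤ weight n j

/-- The utilitarian rule: all weight vectors are constant. -/
def OWARule.Utilitarian (R : OWARule) : Prop := ∀ n i j, R.weight n i = R.weight n j

/-- Free-riding is never harmful under the rule. -/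
def OWARule.NeverHarmful (R : OWARule) : Prop := ∀ n, NeverHarmfulFor n (R.weight n)

end Pool.Agent.Lib.MP_57045c_lc
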