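import Pool.Agent.Lib.MP_57045c_lc.Defs

set_option autoImplicit false

namespace Pool.Agent.Lib.MP_57045c_lc

/-! ### Scores -/

section Score

variable {n : ℕ}

theorem owaScore_eq (a : Fin n → ℝ) (x : Fin n → ℕ) (σ : Equiv.Perm (Fin n))
    (h : Monotone (x ∘ σ)) : owaScore a x = ∑ j, a j * (x (σ j) : ℝ) := by
  have := (Tuple.comp_sort_eq_comp_iff_monotone (f := x) (σ := σ)).2 h
  unfold owaScore
  refine Finset.sum_congr rfl fun j _ => ?_
  have h2 := congrFun this j
  simp only [Function.comp] at h2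
  rw [h2]

theorem lower_set_card (g : Fin n → ℕ) (hg : Monotone g) (c : ℕ) (j : Fin n) :
    g j ≤ c ↔ (j : ℕ) < (Finset.univ.filter fun i => g i ≤ c).card := by
  constructor
  · intro h
    have : Finset.Iic j ⊆ Finset.univ.filter fun i => g i ≤ c := by
      intro i hi
      simp only [Finset.mem_Iic] at hi
      simp only [Finset.mem_filter, Finset.mem_univ, true_and]
      exact le_trans (hg hi) h
    have h2 := Finset.card_le_card this
    simp only [Fin.card_Iic] at h2
    omega
  · intro h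
    by_contra hc
    have : (Finset.univ.filter fun i => g i ≤ c) ⊆ Finset.Iio j := by
      intro i hi
      simp only [Finset.mem_filter, Finset.mem_univ, true_and] at hi
      simp only [Finset.mem_Iio]
      by_contra hij
      exact hc (le_trans (hg (not_lt.1 hij)) hi)
    have h2 := Finset.card_le_card this
    simp only [Fin.card_Iio] at h2
    omega

/-- Raising the satisfaction of `v` by one raises the score by the weight at the last position
occupied by the satisfaction of `v`. -/
theorem owaScore_add_single (a : Fin n → ℝ) (x : Fin n → ℕ) (v : Fin n) :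
    ∃ p : Fin n, (p : ℕ) + 1 = (Finset.univ.filter fun u => x u ≤ x v).card ∧
      owaScore a (x + Pi.single v 1) = owaScore a x + a p := by
  set N := (Finset.univ.filter fun u => x u ≤ x v).card with hN
  have hNpos : 0 < N := Finset.card_pos.2 ⟨v, by simp⟩
  have hNle : N ≤ n := by
    have := Finset.card_filter_le (Finset.univ : Finset (Fin n)) (fun u => x u ≤ x v)
    simpa using this
  let p : Fin n := ⟨N - 1, by omega⟩
  have hp : (p : ℕ) + 1 = N := by simp only [p]; omega
  refine ⟨p, hp, ?_⟩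
  let σ := Tuple.sort x
  let g : Fin n → ℕ := x ∘ σ
  have hg : Monotone g := Tuple.monotone_sort x
  have hcard : (Finset.univ.filter fun i => g i ≤ x v).card = N := by
    rw [hN]
    refine Finset.card_bij (fun i _ => σ i) ?_ ?_ ?_
    · intro i hi; simpa [g] using hi
    · intro i _ j _ h; exact σ.injective h
    · intro u hu; exact ⟨σ.symm u, by simpa [g] using hu, by simp⟩
  have hlow : ∀ j : Fin n, g j ≤ x v ↔ (j : ℕ) < N := by
    intro j; rw [lower_set_card g hg, hcard]
  have hq : (σ.symm v : ℕ) < N := (hlow _).1 (by simp [g])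
  have hgp : g p = x v := by
    apply le_antisymm
    · exact (hlow p).2 (by omega)
    · have : g (σ.symm v) ≤ g p := hg (by
        show (σ.symm v : ℕ) ≤ (p : ℕ)
        omega)
      simpa [g] using this
  let π : Equiv.Perm (Fin n) := σ.trans (Equiv.swap v (σ p))
  have hπ : ∀ j, x (π j) = g j := by
    intro j
    simp only [π, Equiv.trans_apply]
    by_cases h1 : σ j = v
    · rw [h1, Equiv.swap_apply_left]
      show g p = g j
      rw [hgp]; simp [g, h1]
    · by_cases h2 : σ j = σ p
      · rw [h2, Equiv.swap_apply_right, ← hgp]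
        have : j = p := σ.injective h2
        rw [this]
      · rw [Equiv.swap_apply_of_ne_of_ne h1 h2]; rfl
  have hπp : π p = v := by simp [π]
  set y : Fin n → ℕ := x + Pi.single v 1 with hy
  have key : ∀ j, y (π j) = g j + if j = p then 1 else 0 := by
    intro j
    simp only [hy, Pi.add_apply, hπ]
    congr 1
    by_cases h : j = p
    · subst h; simp [hπp]
    · have : π j ≠ v := by
        intro h'; apply h; exact π.injective (h'.trans hπp.symm)
      simp [h, this]
  have hmono : Monotone (y ∘ π) := by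
    intro i j hij
    simp only [Function.comp, key]
    by_cases h1 : i = p
    · by_cases h2 : j = p
      · simp [h1, h2]
      · have hlt : (p : ℕ) < j := by
          have : (i : ℕ) ≤ j := hij
          have h3 : (j : ℕ) ≠ p := fun h => h2 (Fin.ext h)
          rw [h1] at this; omega
        have : ¬ g j ≤ x v := by rw [hlow]; omega
        simp only [h1, if_true, h2, if_false, hgp]
        omega
    · have := hg hij
      simp only [h1, if_false]
      omega
  rw [owaScore_eq a _ π hmono]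
  have : ∀ j, a j * ((y (π j) : ℕ) : ℝ) =
      a j * (x (Tuple.sort x j) : ℝ) + if j = p then a j else 0 := by
    intro j
    rw [key]
    by_cases h : j = p
    · simp [h, g, σ, mul_add]
    · simp [h, g, σ]
  simp only [this, Finset.sum_add_distrib]
  simp [owaScore]

end Score

/-! ### Runs -/

section Run

variable {n : ℕ}

theorem winner_mem {C : Type} [Fintype C] [LinearOrder C] [Nonempty C] (a : Fin n → ℝ)
    (P : Fin n → Set C) (x : Fin n → ℕ) (c : C) :
    owaScore a (addCand P x c) ≤ owaScore a (addCand P x (winner a P x)) := by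
  have h := Finset.min'_mem _ (maximisers_nonempty a P x)
  simp only [maximisers, Finset.mem_filter, Finset.mem_univ, true_and] at h
  exact h c

theorem winner_le {C : Type} [Fintype C] [LinearOrder C] [Nonempty C] (a : Fin n → ℝ)
    (P : Fin n → Set C) (x : Fin n → ℕ) (c : C)
    (h : owaScore a (addCand P x c) = owaScore a (addCand P x (winner a P x))) :
    winner a P x ≤ c := by
  apply Finset.min'_le
  simp only [maximisers, Finset.mem_filter, Finset.mem_univ, true_and]
  intro c'
  rw [h]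
  exact winner_mem a P x c'

/-- If the winners at two satisfaction vectors differ, then they are not tied at both. -/
theorem winner_ne {C : Type} [Fintype C] [LinearOrder C] [Nonempty C] (a : Fin n → ℝ)
    (P : Fin n → Set C) (x y : Fin n → ℕ) (hne : winner a P x ≠ winner a P y)
    (h1 : owaScore a (addCand P x (winner a P y)) = owaScore a (addCand P x (winner a P x)))
    (h2 : owaScore a (addCand P y (winner a P x)) = owaScore a (addCand P y (winner a P y))) :
    False :=
  hne (le_antisymm (winner_le a P x _ h1) (winner_le a P y _ h2))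

variable {F : Frame}

open Classical in
theorem partialSat_eq (a : Fin n → ℝ) (A : Ballots F n) (v : Fin n) (j : ℕ) :
    partialSat a A j v =
      (Finset.univ.filter fun i : Fin F.k => (i : ℕ) < j ∧ outcome a A i ∈ A i v).card := by
  induction j with
  | zero => simp [partialSat]
  | succ j ih =>
    simp only [partialSat]
    by_cases h : j < F.k
    · rw [dif_pos h]
      simp only [addCand]
      rw [ih]
      by_cases h2 : winner a (A ⟨j, h⟩) (partialSat a A j) ∈ A ⟨j, h⟩ v
      · have : (Finset.univ.filter fun i : Fin F.k => (i : ℕ) < j + 1 ∧ outcome a A i ∈ A i v) =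
            insert ⟨j, h⟩
              (Finset.univ.filter fun i : Fin F.k => (i : ℕ) < j ∧ outcome a A i ∈ A i v) := by
          ext i
          simp only [Finset.mem_filter, Finset.mem_univ, true_and, Finset.mem_insert]
          constructor
          · rintro ⟨h3, h4⟩
            by_cases h5 : (i : ℕ) = j
            · left; exact Fin.ext h5
            · right; exact ⟨by omega, h4⟩
          · rintro (h3 | ⟨h3, h4⟩)
            · subst h3
              exact ⟨by simp, h2⟩
            · exact ⟨by omega, h4⟩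
        rw [this, Finset.card_insert_of_notMem (by simp), if_pos h2]
      · have : (Finset.univ.filter fun i : Fin F.k => (i : ℕ) < j + 1 ∧ outcome a A i ∈ A i v) =
              (Finset.univ.filter fun i : Fin F.k => (i : ℕ) < j ∧ outcome a A i ∈ A i v) := by
          ext i
          simp only [Finset.mem_filter, Finset.mem_univ, true_and]
          constructor
          · rintro ⟨h3, h4⟩
            refine ⟨?_, h4⟩
            by_contra h5
            have h6 : i = ⟨j, h⟩ := Fin.ext (by simp; omega)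
            subst h6
            exact h2 h4
          · rintro ⟨h3, h4⟩
            exact ⟨by omega, h4⟩
        rw [this, if_neg h2, Nat.add_zero]
    · rw [dif_neg h, ih]
      congr 1
      ext i
      have := i.2
      simp only [Finset.mem_filter, Finset.mem_univ, true_and]
      constructor
      · rintro ⟨h3, h4⟩; exact ⟨by omega, h4⟩
      · rintro ⟨h3, h4⟩; exact ⟨by omega, h4⟩

theorem sat_outcome (a : Fin n → ℝ) (A : Ballots F n) (v : Fin n) :
    sat A v (outcome a A) = partialSat a A F.k v := by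
  rw [partialSat_eq]
  unfold sat
  congr 1
  ext i
  simp

theorem sat_free_ride (A B : Ballots F n) (v : Fin n) (i : Fin F.k) (w : ∀ i, F.C i)
    (hAB1 : ∀ j, j ≠ i → B j = A j) (hA : w i ∈ A i v) (hB : w i ∉ B i v) :
    sat A v w = sat B v w + 1 := by
  classical
  unfold sat
  have : (Finset.univ.filter fun j => w j ∈ A j v) =
      insert i (Finset.univ.filter fun j => w j ∈ B j v) := by
    ext j
    simp only [Finset.mem_filter, Finset.mem_univ, true_and, Finset.mem_insert]
    by_cases hj : j = i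
    · subst hj
      simp [hA]
    · rw [hAB1 j hj]; simp [hj]
  rw [this, Finset.card_insert_of_notMem]
  simp [hB]

/-- A relation between satisfaction vectors that is preserved by every issue yields that
free-riding is never harmful. -/
theorem not_harmful_of_invariant (a : Fin n → ℝ) (v : Fin n)
    (R : (Fin n → ℕ) → (Fin n → ℕ) → Prop)
    (h1 : ∀ x, R (x + Pi.single v 1) x)
    (h2 : ∀ (C : Type) [Fintype C] [LinearOrder C] [Nonempty C] (P : Fin n → Set C) (x y),
      R x y → R (addCand P x (winner a P x)) (addCand P y (winner a P y)))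
    (h3 : ∀ x y, R x y → x v ≤ y v + 1)
    (A B : Ballots F n) (i : Fin F.k) : ¬ HarmfulFreeRiding a A B v i := by
  classical
  rintro ⟨hAB, hA, hB, hw, hlt⟩
  have hAB1 : ∀ j, j ≠ i → B j = A j := fun j hj => funext fun u => hAB j u (Or.inl hj)
  have e1 : ∀ j : ℕ, j ≤ i → partialSat a B j = partialSat a A j := by
    intro j
    induction j with
    | zero => intro _; rfl
    | succ j ih =>
      intro hj
      have ih' := ih (by omega)
      simp only [partialSat]
      have hk : j < F.k := by have := i.2; omega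
      rw [dif_pos hk, dif_pos hk, ih', hAB1 ⟨j, hk⟩ (by
        intro h; have := congrArg Fin.val h; simp at this; omega)]
  have e2 : partialSat a A (i + 1) = partialSat a B (i + 1) + Pi.single v 1 := by
    have e3 := e1 i le_rfl
    simp only [partialSat]
    rw [dif_pos i.2, dif_pos i.2]
    have e4 : winner a (B ⟨i, i.2⟩) (partialSat a B i) = winner a (A ⟨i, i.2⟩) (partialSat a A i) :=
      hw
    rw [e4, e3]
    funext u
    simp only [addCand, Pi.add_apply]
    by_cases hu : u = v
    · subst hu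
      have hA' : winner a (A ⟨i, i.2⟩) (partialSat a A i) ∈ A ⟨i, i.2⟩ u := hA
      have hB' : winner a (A ⟨i, i.2⟩) (partialSat a A i) ∉ B ⟨i, i.2⟩ u := hB
      rw [if_pos hA', if_neg hB']
      simp
    · have : B ⟨i, i.2⟩ u = A ⟨i, i.2⟩ u := hAB _ _ (Or.inr hu)
      rw [this]
      simp [hu]
  have e5 : ∀ j : ℕ, R (partialSat a A (i + 1 + j)) (partialSat a B (i + 1 + j)) := by
    intro j
    induction j with
    | zero => rw [Nat.add_zero, e2]; exact h1 _
    | succ j ih =>
      rw [← Nat.add_assoc]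
      simp only [partialSat]
      by_cases hk : (i : ℕ) + 1 + j < F.k
      · rw [dif_pos hk, dif_pos hk, hAB1 ⟨i + 1 + j, hk⟩ (by
          intro h; have := congrArg Fin.val h; simp at this; omega)]
        exact h2 _ _ _ _ ih
      · rw [dif_neg hk, dif_neg hk]; exact ih
  have e6 : R (partialSat a A F.k) (partialSat a B F.k) := by
    have := e5 (F.k - (i + 1))
    have h7 : (i : ℕ) + 1 + (F.k - (i + 1)) = F.k := by have := i.2; omega
    rwa [h7] at this
  have e7 := h3 _ _ e6
  have e8 : sat A v (outcome a B) = sat B v (outcome a B) + 1 :=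
    sat_free_ride A B v i _ hAB1 (by rw [hw]; exact hA) (by rw [hw]; exact hB)
  rw [e8, sat_outcome, sat_outcome] at hlt
  omega

end Run

/-! ### Weights for which free-riding is never harmful -/

section Safe

theorem never_const {n : ℕ} (a : Fin n → ℝ) (ha : ∀ i j, a i = a j) : NeverHarmfulFor n a := by
  intro F A B v
  have key : ∀ x : Fin n → ℕ, owaScore a x = a v * ∑ u, (x u : ℝ) := by
    intro x
    unfold owaScore
    rw [Finset.mul_sum, ← Equiv.sum_comp (Tuple.sort x) (fun u => a v * (x u : ℝ))]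
    exact Finset.sum_congr rfl fun j _ => by rw [ha j v]
  refine not_harmful_of_invariant a v (fun x y => x = y + Pi.single v 1) (fun x => rfl) ?_ ?_ A B
  · intro C _ _ _ P x y hxy
    have hw : winner a P x = winner a P y := by
      by_contra hne
      have hadd : ∀ c, owaScore a (addCand P x c) = owaScore a (addCand P y c) + a v := by
        intro c
        rw [key, key, hxy]
        have : ∀ u, ((addCand P (y + Pi.single v 1) c u : ℕ) : ℝ) =
            (addCand P y c u : ℝ) + (Pi.single v 1 : Fin n → ℝ) u := by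
          intro u
          simp only [addCand, Pi.add_apply]
          by_cases hu : u = v
          · subst hu; simp; ring
          · simp [hu]
        simp only [this, Finset.sum_add_distrib]
        simp [mul_add]
      have h1 := winner_mem a P x (winner a P y)
      have h2 := winner_mem a P y (winner a P x)
      rw [hadd, hadd] at h1
      refine winner_ne a P x y hne ?_ ?_
      · rw [hadd, hadd]; linarith
      · linarith
    rw [hw, hxy]
    funext u
    simp only [addCand, Pi.add_apply]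
    omega
  · intro x y hxy
    rw [hxy]; simp

theorem owaScore_two (a : Fin 2 → ℝ) (x : Fin 2 → ℕ) :
    owaScore a x = a 0 * (min (x 0) (x 1) : ℕ) + a 1 * (max (x 0) (x 1) : ℕ) := by
  rcases le_total (x 0) (x 1) with h | h
  · rw [owaScore_eq a x (Equiv.refl _)]
    · simp [Fin.sum_univ_two, h]
    · intro i j hij
      fin_cases i <;> fin_cases j <;> simp_all
  · rw [owaScore_eq a x (Equiv.swap 0 1)]
    · simp [Fin.sum_univ_two, h]
    · intro i j hij
      fin_cases i <;> fin_cases j <;> simp_all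

theorem two_arith (a0 a1 : ℝ) (ha : a1 ≤ a0) (x0 x1 y0 y1 p0 p1 q0 q1 : ℕ)
    (hx0 : y0 ≤ x0 ∧ x0 ≤ y0 + 1) (hx1 : y1 ≤ x1 ∧ x1 ≤ y1 + 1)
    (hp0 : p0 ≤ 1) (hp1 : p1 ≤ 1) (hq0 : q0 ≤ 1) (hq1 : q1 ≤ 1)
    (h1 : a0 * (min (x0 + q0) (x1 + q1) : ℕ) + a1 * (max (x0 + q0) (x1 + q1) : ℕ) ≤
      a0 * (min (x0 + p0) (x1 + p1) : ℕ) + a1 * (max (x0 + p0) (x1 + p1) : ℕ))
    (h2 : a0 * (min (y0 + p0) (y1 + p1) : ℕ) + a1 * (max (y0 + p0) (y1 + p1) : ℕ) ≤
      a0 * (min (y0 + q0) (y1 + q1) : ℕ) + a1 * (max (y0 + q0) (y1 + q1) : ℕ))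
    (h3 : a0 * (min (x0 + q0) (x1 + q1) : ℕ) + a1 * (max (x0 + q0) (x1 + q1) : ℕ) =
      a0 * (min (x0 + p0) (x1 + p1) : ℕ) + a1 * (max (x0 + p0) (x1 + p1) : ℕ) →
      a0 * (min (y0 + p0) (y1 + p1) : ℕ) + a1 * (max (y0 + p0) (y1 + p1) : ℕ) =
      a0 * (min (y0 + q0) (y1 + q1) : ℕ) + a1 * (max (y0 + q0) (y1 + q1) : ℕ) → False) :
    (y0 + q0 ≤ x0 + p0 ∧ x0 + p0 ≤ y0 + q0 + 1) ∧
      (y1 + q1 ≤ x1 + p1 ∧ x1 + p1 ≤ y1 + q1 + 1) := by
  have hF : ∀ s t : ℕ, a0 * (min s t : ℕ) + a1 * (max s t : ℕ) =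
      a1 * ((s : ℝ) + t) + (a0 - a1) * (min s t : ℕ) := by
    intro s t
    rcases le_total s t with h | h
    · rw [min_eq_left h, max_eq_right h]; ring
    · rw [min_eq_right h, max_eq_left h]; ring
  rw [hF, hF] at h1 h2
  rw [hF, hF, hF, hF] at h3
  push_cast [Nat.cast_add] at h1 h2 h3
  have key : ¬ ((min (x0 + p0) (x1 + p1) + min (y0 + q0) (y1 + q1) : ℕ) : ℝ) ≤
      ((min (x0 + q0) (x1 + q1) + min (y0 + p0) (y1 + p1) : ℕ) : ℝ) := by
    intro hle
    push_cast at hle
    have h4 : 0 ≤ a0 - a1 := by linarith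
    have h5 := mul_le_mul_of_nonneg_left hle h4
    apply h3
    · linarith
    · linarith
  have key2 : ¬ (min (x0 + p0) (x1 + p1) + min (y0 + q0) (y1 + q1)) ≤
      (min (x0 + q0) (x1 + q1) + min (y0 + p0) (y1 + p1)) := fun h => key (by exact_mod_cast h)
  clear h1 h2 h3 hF key
  omega

theorem never_two (a : Fin 2 → ℝ) (ha : a 1 ≤ a 0) : NeverHarmfulFor 2 a := by
  intro F A B v
  refine not_harmful_of_invariant a v (fun x y => ∀ u, y u ≤ x u ∧ x u ≤ y u + 1) ?_ ?_ ?_ A B
  · intro x u
    by_cases hu : u = v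
    · subst hu; simp
    · simp [hu]
  · intro C _ _ _ P x y hxy
    by_cases hw : winner a P x = winner a P y
    · rw [hw]
      intro u
      have := hxy u
      simp only [addCand]
      omega
    · have h1 := winner_mem a P x (winner a P y)
      have h2 := winner_mem a P y (winner a P x)
      have h3 := winner_ne a P x y hw
      generalize winner a P x = c at *
      generalize winner a P y = d at *
      rw [owaScore_two, owaScore_two] at h1 h2 h3
      rw [owaScore_two, owaScore_two] at h3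
      have h4 := two_arith (a 0) (a 1) ha (x 0) (x 1) (y 0) (y 1) _ _ _ _ (hxy 0) (hxy 1)
        (by split_ifs <;> simp) (by split_ifs <;> simp) (by split_ifs <;> simp)
        (by split_ifs <;> simp) h1 h2 h3
      intro u
      fin_cases u
      · exact h4.1
      · exact h4.2
  · intro x y hxy
    exact (hxy v).2

theorem card_le_iff {n : ℕ} (z : Fin n → ℕ) (p q : Fin n) :
    (Finset.univ.filter fun u => z u ≤ z p).card ≤ (Finset.univ.filter fun u => z u ≤ z q).card ↔
      z p ≤ z q := by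
  constructor
  · intro h
    by_contra hlt
    push Not at hlt
    have : (Finset.univ.filter fun u => z u ≤ z q) ⊂ (Finset.univ.filter fun u => z u ≤ z p) := by
      rw [Finset.ssubset_iff_of_subset]
      · exact ⟨p, by simp, by simp [hlt]⟩
      · intro u hu
        simp only [Finset.mem_filter, Finset.mem_univ, true_and] at *
        omega
    have := Finset.card_lt_card this
    omega
  · intro h
    apply Finset.card_le_card
    intro u hu
    simp only [Finset.mem_filter, Finset.mem_univ, true_and] at *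
    omega

theorem single_iff {n : ℕ} (a : Fin n → ℝ) (ha : StrictAnti a) (z : Fin n → ℕ) (p q : Fin n) :
    owaScore a (z + Pi.single q 1) ≤ owaScore a (z + Pi.single p 1) ↔ z p ≤ z q := by
  obtain ⟨p', hp', ep⟩ := owaScore_add_single a z p
  obtain ⟨q', hq', eq⟩ := owaScore_add_single a z q
  rw [ep, eq, add_le_add_iff_left, ha.le_iff_ge, ← card_le_iff z p q, ← hp', ← hq']
  show (p' : ℕ) ≤ q' ↔ _
  omega

theorem owaScore_add_one {n : ℕ} (a : Fin n → ℝ) (z : Fin n → ℕ) :
    owaScore a (z + 1) = owaScore a z + ∑ j, a j := by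
  rw [owaScore_eq a (z + 1) (Tuple.sort z)]
  · unfold owaScore
    rw [← Finset.sum_add_distrib]
    refine Finset.sum_congr rfl fun j _ => ?_
    simp only [Pi.add_apply, Pi.one_apply]
    push_cast
    ring
  · intro i j hij
    have := Tuple.monotone_sort z hij
    simp only [Function.comp, Pi.add_apply, Pi.one_apply] at *
    omega

theorem classify (f : Fin 3 → ℕ) (hf : ∀ u, f u ≤ 1) :
    f = 0 ∨ (∃ p, f = Pi.single p 1) ∨ (∃ p, f + Pi.single p 1 = 1) ∨ f = 1 := by
  have h0 : f 0 = 0 ∨ f 0 = 1 := by have := hf 0; omega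
  have h1 : f 1 = 0 ∨ f 1 = 1 := by have := hf 1; omega
  have h2 : f 2 = 0 ∨ f 2 = 1 := by have := hf 2; omega
  rcases h0 with h0 | h0 <;> rcases h1 with h1 | h1 <;> rcases h2 with h2 | h2
  · left; funext u; fin_cases u <;> simp [h0, h1, h2]
  · right; left; refine ⟨2, ?_⟩; funext u; fin_cases u <;> simp [h0, h1, h2]
  · right; left; refine ⟨1, ?_⟩; funext u; fin_cases u <;> simp [h0, h1, h2]
  · right; right; left; refine ⟨0, ?_⟩; funext u; fin_cases u <;> simp [h0, h1, h2]
  · right; left; refine ⟨0, ?_⟩; funext u; fin_cases u <;> simp [h0, h1, h2]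
  · right; right; left; refine ⟨1, ?_⟩; funext u; fin_cases u <;> simp [h0, h1, h2]
  · right; right; left; refine ⟨2, ?_⟩; funext u; fin_cases u <;> simp [h0, h1, h2]
  · right; right; right; funext u; fin_cases u <;> simp [h0, h1, h2]

theorem fin3_third : ∀ p q : Fin 3, p ≠ q → ∃ r, r ≠ p ∧ r ≠ q := by decide

theorem fin3_all : ∀ p q r u : Fin 3, p ≠ q → r ≠ p → r ≠ q → u = p ∨ u = q ∨ u = r := by decide

/-- The excluded-voter form of `single_iff` for three voters. -/
theorem pair_iff (a : Fin 3 → ℝ) (ha : StrictAnti a) (z : Fin 3 → ℕ) (p q : Fin 3)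
    (f g : Fin 3 → ℕ) (hf : f + Pi.single p 1 = 1) (hg : g + Pi.single q 1 = 1) :
    owaScore a (z + g) ≤ owaScore a (z + f) ↔ z q ≤ z p := by
  by_cases hpq : p = q
  · subst hpq
    have : f = g := by
      have : f + Pi.single p 1 = g + Pi.single p 1 := by rw [hf, hg]
      exact add_right_cancel this
    rw [this]; simp
  · obtain ⟨r, hr⟩ := fin3_third p q hpq
    have hall : ∀ u : Fin 3, u = p ∨ u = q ∨ u = r := fun u => fin3_all p q r u hpq hr.1 hr.2
    have hf' : z + f = (z + Pi.single r 1) + Pi.single q 1 := by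
      funext u
      have h1 := congrFun hf u
      simp only [Pi.add_apply, Pi.one_apply] at *
      rcases hall u with h | h | h
      · subst h
        simp [hpq, Ne.symm hr.1] at *
        omega
      · subst h
        simp [Ne.symm hpq, Ne.symm hr.2] at *
        omega
      · subst h
        simp [hr.1, hr.2] at *
        omega
    have hg' : z + g = (z + Pi.single r 1) + Pi.single p 1 := by
      funext u
      have h1 := congrFun hg u
      simp only [Pi.add_apply, Pi.one_apply] at *
      rcases hall u with h | h | h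
      · subst h
        simp [hpq, Ne.symm hr.1] at *
        omega
      · subst h
        simp [Ne.symm hpq, Ne.symm hr.2] at *
        omega
      · subst h
        simp [hr.1, hr.2] at *
        omega
    rw [hf', hg', single_iff a ha]
    simp [Ne.symm hr.1, Ne.symm hr.2]

theorem weight_bounds (a : Fin 3 → ℝ) (ha : StrictAnti a) (p : Fin 3) : a 2 ≤ a p ∧ a p ≤ a 0 :=
  ⟨ha.antitone (Fin.le_last p), ha.antitone (Fin.zero_le p)⟩

theorem single_bounds (a : Fin 3 → ℝ) (ha : StrictAnti a) (z : Fin 3 → ℕ) (p : Fin 3) :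
    owaScore a z + a 2 ≤ owaScore a (z + Pi.single p 1) ∧
      owaScore a (z + Pi.single p 1) ≤ owaScore a z + a 0 := by
  obtain ⟨p', _, ep⟩ := owaScore_add_single a z p
  rw [ep]
  have := weight_bounds a ha p'
  constructor <;> linarith

theorem pair_bounds (a : Fin 3 → ℝ) (ha : StrictAnti a) (z f : Fin 3 → ℕ) (p : Fin 3)
    (hf : f + Pi.single p 1 = 1) :
    owaScore a z + a 1 + a 2 ≤ owaScore a (z + f) ∧
      owaScore a (z + f) ≤ owaScore a z + a 0 + a 1 := by
  have h1 := single_bounds a ha (z + f) p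
  have h2 : z + f + Pi.single p 1 = z + 1 := by rw [add_assoc, hf]
  rw [h2, owaScore_add_one, Fin.sum_univ_three] at h1
  constructor <;> linarith

/-- With three voters, strictly decreasing weights and `a 0 < a 1 + a 2`, the chosen approval
vectors at `y + e_i` and at `y` differ by moving the unit `e_i`. -/
theorem three_step (a : Fin 3 → ℝ) (ha : StrictAnti a) (hs : a 0 < a 1 + a 2)
    (x y : Fin 3 → ℕ) (i : Fin 3) (hxy : x = y + Pi.single i 1) (f g : Fin 3 → ℕ)
    (hf : ∀ u, f u ≤ 1) (hg : ∀ u, g u ≤ 1)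
    (h1 : owaScore a (x + g) ≤ owaScore a (x + f)) (h2 : owaScore a (y + f) ≤ owaScore a (y + g))
    (h3 : owaScore a (x + g) = owaScore a (x + f) → owaScore a (y + f) = owaScore a (y + g) →
      f = g) : ∃ j, x + f = y + g + Pi.single j 1 := by
  have h01 : a 1 < a 0 := ha (by decide)
  have h12 : a 2 < a 1 := ha (by decide)
  by_cases hfg : f = g
  · exact ⟨i, by rw [hfg, hxy]; abel⟩
  have hx0 := owaScore_add_one a x
  have hy0 := owaScore_add_one a y
  rw [Fin.sum_univ_three] at hx0 hy0
  rcases classify f hf with rfl | ⟨p, rfl⟩ | ⟨p, hp⟩ | rfl <;>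
    rcases classify g hg with rfl | ⟨q, rfl⟩ | ⟨q, hq⟩ | rfl
  · exact absurd rfl hfg
  · have := single_bounds a ha x q
    rw [add_zero] at h1; linarith
  · have := pair_bounds a ha x g q hq
    rw [add_zero] at h1; linarith
  · rw [add_zero] at h1; linarith
  · have := single_bounds a ha y p
    rw [add_zero] at h2; linarith
  · rw [single_iff a ha] at h1 h2
    have hpq : p ≠ q := fun h => hfg (by rw [h])
    by_cases hi : i = q
    · exact ⟨p, by rw [hxy, hi]⟩
    · exfalso
      apply hfg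
      have e1 : x q = y q := by rw [hxy]; simp [Ne.symm hi]
      have e2 : y p ≤ x p := by rw [hxy]; simp
      apply h3
      · apply le_antisymm
        · rwa [single_iff a ha]
        · rw [single_iff a ha]; omega
      · apply le_antisymm
        · rwa [single_iff a ha]
        · rw [single_iff a ha]; omega
  · have := pair_bounds a ha x g q hq
    have := single_bounds a ha x p
    linarith
  · have := single_bounds a ha x p
    linarith
  · have := pair_bounds a ha y f p hp
    rw [add_zero] at h2; linarith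
  · have := pair_bounds a ha y f p hp
    have := single_bounds a ha y q
    linarith
  · have h1' := h1
    have h2' := h2
    rw [pair_iff a ha x p q f g hp hq] at h1
    rw [pair_iff a ha y q p g f hq hp] at h2
    have hpq : p ≠ q := by
      intro h
      subst h
      have : f + Pi.single p 1 = g + Pi.single p 1 := by rw [hp, hq]
      exact hfg (add_right_cancel this)
    by_cases hi : i = p
    · refine ⟨q, ?_⟩
      rw [hxy, hi]
      have : y + Pi.single p 1 + f = y + (f + Pi.single p 1) := by abel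
      rw [this, hp, ← hq]; abel
    · exfalso
      apply hfg
      have e1 : x p = y p := by rw [hxy]; simp [Ne.symm hi]
      have e2 : y q ≤ x q := by rw [hxy]; simp
      apply h3
      · apply le_antisymm h1'
        rw [pair_iff a ha x q p g f hq hp]; omega
      · apply le_antisymm h2'
        rw [pair_iff a ha y p q f g hp hq]; omega
  · have := pair_bounds a ha x f p hp
    linarith
  · rw [add_zero] at h2; linarith
  · have := single_bounds a ha y q
    linarith
  · have := pair_bounds a ha y g q hq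
    linarith
  · exact absurd rfl hfg

theorem never_three (a : Fin 3 → ℝ) (ha : StrictAnti a) (hs : a 0 < a 1 + a 2) :
    NeverHarmfulFor 3 a := by
  classical
  intro F A B v
  refine not_harmful_of_invariant a v (fun x y => ∃ i, x = y + Pi.single i 1)
    (fun x => ⟨v, rfl⟩) ?_ ?_ A B
  · rintro C _ _ _ P x y ⟨i, hxy⟩
    have h1 := winner_mem a P x (winner a P y)
    have h2 := winner_mem a P y (winner a P x)
    have h3 := winner_ne a P x y
    have hadd : ∀ (z : Fin 3 → ℕ) (c : C), addCand P z c =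
        z + fun v => if c ∈ P v then 1 else 0 := by
      intro z c; funext u; simp [addCand]
    rw [hadd, hadd] at h1 h2 ⊢
    refine three_step a ha hs x y i hxy _ _ (fun u => by split_ifs <;> simp)
      (fun u => by split_ifs <;> simp) h1 h2 ?_
    intro e1 e2
    by_contra hne
    refine h3 ?_ ?_ ?_
    · intro h; rw [h] at hne; exact hne rfl
    · rw [hadd, hadd]; exact e1
    · rw [hadd, hadd]; exact e2
  · rintro x y ⟨i, rfl⟩
    simp only [Pi.add_apply]
    by_cases hi : v = i
    · subst hi; simp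
    · simp [hi]

end Safe

/-! ### Constructing harmful examples -/

section Harm

/-- Indicator vector of a set of voters. -/
def ind {n : ℕ} (P : Finset (Fin n)) : Fin n → ℕ := fun u => if u ∈ P then 1 else 0

/-- One issue with two candidates, approved by `p.1` and `p.2`; the first one wins ties. -/
noncomputable def step {n : ℕ} (a : Fin n → ℝ) (x : Fin n → ℕ)
    (p : Finset (Fin n) × Finset (Fin n)) : Fin n → ℕ :=
  open Classical in
  if owaScore a (x + ind p.1) < owaScore a (x + ind p.2) then x + ind p.2 else x + ind p.1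

noncomputable def run {n : ℕ} (a : Fin n → ℝ) (x : Fin n → ℕ)
    (l : List (Finset (Fin n) × Finset (Fin n))) : Fin n → ℕ :=
  l.foldl (step a) x

def frameOf (k : ℕ) : Frame where
  k := k
  C := fun _ => Fin 2

/-- The ballots of the voters in one two-candidate issue. -/
def issueBallots {n : ℕ} (p : Finset (Fin n) × Finset (Fin n)) : Fin n → Set (Fin 2) :=
  fun u => {c | u ∈ if c = 0 then p.1 else p.2}

def ballotsOf {n : ℕ} (k : ℕ) (L : List (Finset (Fin n) × Finset (Fin n))) :
    Ballots (frameOf k) n :=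
  fun i => issueBallots (L.getD i (∅, ∅))

variable {n : ℕ}

theorem fin2 : ∀ c : Fin 2, c = 0 ∨ c = 1 := by decide

theorem mem_issueBallots (p : Finset (Fin n) × Finset (Fin n)) (u : Fin n) (c : Fin 2) :
    c ∈ issueBallots p u ↔ u ∈ if c = 0 then p.1 else p.2 := Iff.rfl

theorem addCand_zero (p : Finset (Fin n) × Finset (Fin n)) (x : Fin n → ℕ) :
    addCand (issueBallots p) x 0 = x + ind p.1 := by
  funext u; simp [addCand, issueBallots, ind]

theorem addCand_one (p : Finset (Fin n) × Finset (Fin n)) (x : Fin n → ℕ) :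
    addCand (issueBallots p) x 1 = x + ind p.2 := by
  funext u; simp [addCand, issueBallots, ind]

theorem addCand_winner (a : Fin n → ℝ) (p : Finset (Fin n) × Finset (Fin n)) (x : Fin n → ℕ) :
    addCand (issueBallots p) x (winner a (issueBallots p) x) = step a x p := by
  have h0 := winner_mem a (issueBallots p) x 0
  have h1 := winner_mem a (issueBallots p) x 1
  have h2 := winner_le a (issueBallots p) x 0
  unfold step
  generalize winner a (issueBallots p) x = c at *
  obtain rfl | rfl := fin2 c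
  · rw [addCand_zero, addCand_one] at h1
    rw [if_neg (not_lt.2 h1), addCand_zero]
  · rw [addCand_zero, addCand_one] at h0 h2
    rw [addCand_one]
    split_ifs with h
    · rfl
    · have := h2 (le_antisymm h0 (not_lt.1 h))
      exact absurd this (by decide)

theorem winner_same (a : Fin n → ℝ) (P : Finset (Fin n)) (x : Fin n → ℕ) :
    winner a (issueBallots (P, P)) x = 0 := by
  have h2 := winner_le a (issueBallots (P, P)) x 0
  generalize winner a (issueBallots (P, P)) x = c at *
  obtain rfl | rfl := fin2 c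
  · rfl
  · have := h2 (by rw [addCand_zero, addCand_one])
    exact absurd this (by decide)

theorem partialSat_ballotsOf (a : Fin n → ℝ) (k : ℕ) (L : List (Finset (Fin n) × Finset (Fin n)))
    (hL : L.length = k) (j : ℕ) (hj : j ≤ k) :
    partialSat a (ballotsOf k L) j = run a 0 (L.take j) := by
  induction j with
  | zero => simp [partialSat, run]; rfl
  | succ j ih =>
    have hj' : j < k := hj
    simp only [partialSat]
    rw [dif_pos (show j < (frameOf k).k from hj'), ih (by omega)]
    have hlt : j < L.length := by omega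
    have e1 : L.getD j (∅, ∅) = L[j] := by simp [List.getD, hlt]
    have e2 : L.take (j + 1) = L.take j ++ [L[j]] := by simp
    rw [e2]
    unfold run
    rw [List.foldl_append]
    simp only [List.foldl_cons, List.foldl_nil]
    have e3 : ballotsOf k L (⟨j, hj'⟩ : Fin (frameOf k).k) = issueBallots L[j] := by
      unfold ballotsOf; rw [← e1]
    rw [e3]
    exact addCand_winner a L[j] _

theorem step_same (a : Fin n → ℝ) (P : Finset (Fin n)) (x : Fin n → ℕ) :
    step a x (P, P) = x + ind P := by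
  unfold step; simp

/-- A list of issues reaching prescribed satisfactions. -/
theorem exists_reach (a : Fin n → ℝ) (s : Fin n → ℕ) :
    ∃ l, run a 0 l = s := by
  let pre : ℕ → List (Finset (Fin n) × Finset (Fin n)) := fun M =>
    (List.range M).map fun j => (Finset.univ.filter fun u => j < s u,
      Finset.univ.filter fun u => j < s u)
  have h : ∀ M, run a 0 (pre M) = fun u => min (s u) M := by
    intro M
    induction M with
    | zero => simp [pre, run]; rfl
    | succ M ih =>
      have : pre (M + 1) = pre M ++ [(Finset.univ.filter fun u => M < s u,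
          Finset.univ.filter fun u => M < s u)] := by
        simp [pre, List.range_succ]
      rw [this]
      unfold run at *
      rw [List.foldl_append, ih]
      simp only [List.foldl_cons, List.foldl_nil]
      rw [step_same]
      funext u
      simp only [Pi.add_apply, ind, Finset.mem_filter, Finset.mem_univ, true_and]
      split_ifs <;> omega
  refine ⟨pre (∑ u, s u), ?_⟩
  rw [h]
  funext u
  exact min_eq_left (Finset.single_le_sum (f := s) (fun _ _ => Nat.zero_le _) (Finset.mem_univ u))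

/-- Free-riding is harmful for `v` when, after her satisfaction is under-reported by one, the
later issues give her at least two approved candidates fewer. -/
theorem harmful_of_run (a : Fin n → ℝ) (s : Fin n → ℕ) (v : Fin n)
    (l : List (Finset (Fin n) × Finset (Fin n)))
    (h : run a s l v + 1 < run a (s + Pi.single v 1) l v) : ¬ NeverHarmfulFor n a := by
  obtain ⟨pre, hpre⟩ := exists_reach a s
  set LA := pre ++ (({v}, {v}) :: l) with hLA
  set LB := pre ++ ((∅, ∅) :: l) with hLB
  set k := pre.length + (l.length + 1) with hk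
  have hlA : LA.length = k := by simp [hLA, hk]
  have hlB : LB.length = k := by simp [hLB, hk]
  let i : Fin (frameOf k).k := ⟨pre.length, by show pre.length < k; omega⟩
  have hgA : LA.getD pre.length (∅, ∅) = ({v}, {v}) := by simp [hLA]
  have hgB : LB.getD pre.length (∅, ∅) = (∅, ∅) := by simp [hLB]
  have hAi : ballotsOf k LA i = issueBallots ({v}, {v}) := by
    show issueBallots (LA.getD pre.length (∅, ∅)) = _
    rw [hgA]
  have hBi : ballotsOf k LB i = issueBallots (∅, ∅) := by
    show issueBallots (LB.getD pre.length (∅, ∅)) = _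
    rw [hgB]
  have hne : ∀ j, j ≠ i → ballotsOf k LB j = ballotsOf k LA j := by
    intro j hj
    have hj' : (j : ℕ) ≠ pre.length := fun h => hj (Fin.ext h)
    show issueBallots (LB.getD j (∅, ∅)) = issueBallots (LA.getD j (∅, ∅))
    congr 1
    rcases lt_or_gt_of_ne hj' with h1 | h1
    · simp only [hLA, hLB, List.getD]
      rw [List.getElem?_append_left h1, List.getElem?_append_left h1]
    · obtain ⟨m, hm⟩ : ∃ m, (j : ℕ) = pre.length + 1 + m := ⟨j - (pre.length + 1), by omega⟩
      rw [hm]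
      simp [hLA, hLB, List.getD, List.getElem?_append_right, Nat.add_assoc, Nat.add_comm 1 m]
  have hwA : outcome a (ballotsOf k LA) i = (0 : Fin 2) := by
    unfold outcome
    rw [hAi]
    exact winner_same a {v} _
  have hwB : outcome a (ballotsOf k LB) i = (0 : Fin 2) := by
    unfold outcome
    rw [hBi]
    exact winner_same a ∅ _
  have hmem : outcome a (ballotsOf k LA) i ∈ ballotsOf k LA i v := by
    rw [hAi, hwA]
    exact (mem_issueBallots _ _ _).2 (by simp)
  have hnmem : ∀ c, c ∉ ballotsOf k LB i v := by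
    intro c
    rw [hBi]
    intro hc
    have := (mem_issueBallots _ _ _).1 hc
    simp at this
  intro hN
  refine hN (frameOf k) (ballotsOf k LA) (ballotsOf k LB) v i ⟨?_, hmem, hnmem _, ?_, ?_⟩
  · intro j u hju
    by_cases hj : j = i
    · subst hj
      have hu : u ≠ v := by
        rcases hju with h1 | h1
        · exact absurd rfl h1
        · exact h1
      rw [hAi, hBi]
      ext c
      refine (mem_issueBallots _ _ _).trans (Iff.trans ?_ (mem_issueBallots _ _ _).symm)
      simp [hu]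
    · rw [hne j hj]
  · rw [hwA, hwB]
  · rw [sat_free_ride (ballotsOf k LA) (ballotsOf k LB) v i _ hne
      (by rw [hwB, ← hwA]; exact hmem) (hnmem _), sat_outcome, sat_outcome]
    show partialSat a (ballotsOf k LB) k v + 1 < partialSat a (ballotsOf k LA) k v
    rw [partialSat_ballotsOf a k LA hlA k le_rfl, partialSat_ballotsOf a k LB hlB k le_rfl,
      List.take_of_length_le hlA.le, List.take_of_length_le hlB.le]
    have e1 : run a 0 LA = run a (s + Pi.single v 1) l := by
      rw [hLA]
      unfold run at *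
      rw [List.foldl_append, hpre, List.foldl_cons, step_same]
      congr 1
      funext u
      simp only [Pi.add_apply, ind, Finset.mem_singleton]
      by_cases hu : u = v
      · subst hu; simp
      · simp [hu]
    have e2 : run a 0 LB = run a s l := by
      rw [hLB]
      unfold run at *
      rw [List.foldl_append, hpre, List.foldl_cons, step_same]
      congr 1
    rw [e1, e2]
    exact h

theorem owaScore_append {m n : ℕ} (a : Fin (m + n) → ℝ) (x : Fin m → ℕ) (y : Fin n → ℕ)
    (hxy : ∀ i j, x i ≤ y j) : owaScore a (Fin.append x y) =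
      owaScore (fun i => a (Fin.castAdd n i)) x + owaScore (fun j => a (Fin.natAdd m j)) y := by
  let ρ : Equiv.Perm (Fin (m + n)) :=
    finSumFinEquiv.symm.trans ((Equiv.sumCongr (Tuple.sort x) (Tuple.sort y)).trans finSumFinEquiv)
  have h1 : ∀ i, ρ (Fin.castAdd n i) = Fin.castAdd n (Tuple.sort x i) := by
    intro i; simp [ρ]
  have h2 : ∀ j, ρ (Fin.natAdd m j) = Fin.natAdd m (Tuple.sort y j) := by
    intro j; simp [ρ]
  rw [owaScore_eq a _ ρ]
  · rw [Fin.sum_univ_add]
    simp only [h1, h2, Fin.append_left, Fin.append_right]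
    rfl
  · intro i j
    refine Fin.addCases (fun i => ?_) (fun i => ?_) i <;>
      refine Fin.addCases (fun j => ?_) (fun j => ?_) j <;> intro hij <;>
      simp only [Function.comp, h1, h2, Fin.append_left, Fin.append_right]
    · exact Tuple.monotone_sort x (show (i : ℕ) ≤ j from hij)
    · exact hxy _ _
    · exfalso
      have : (Fin.natAdd m i : ℕ) ≤ (Fin.castAdd n j : ℕ) := hij
      simp at this
      omega
    · exact Tuple.monotone_sort y (by simpa using hij)

/-- Satisfactions of `L` voters with satisfaction `0`, then `r` voters with satisfactions `m`,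
then `H` voters with satisfaction `T`. -/
def emb (L H T : ℕ) {r : ℕ} (m : Fin r → ℕ) : Fin (L + r + H) → ℕ :=
  Fin.append (Fin.append (fun _ : Fin L => 0) m) (fun _ : Fin H => T)

/-- The weights seen by the middle voters. -/
def win (L H : ℕ) {r : ℕ} (a : Fin (L + r + H) → ℝ) : Fin r → ℝ :=
  fun j => a (Fin.castAdd H (Fin.natAdd L j))

def mid (L H : ℕ) {r : ℕ} (j : Fin r) : Fin (L + r + H) := Fin.castAdd H (Fin.natAdd L j)

theorem mid_injective (L H : ℕ) {r : ℕ} : Function.Injective (mid L H (r := r)) := by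
  intro i j h
  have := congrArg Fin.val h
  simp [mid] at this
  exact Fin.ext this

theorem emb_mid (L H T : ℕ) {r : ℕ} (m : Fin r → ℕ) (j : Fin r) : emb L H T m (mid L H j) = m j := by
  simp [emb, mid]

theorem emb_add (L H T : ℕ) {r : ℕ} (m : Fin r → ℕ) (P : Finset (Fin r)) :
    emb L H T m + ind (P.map ⟨mid L H, mid_injective L H⟩) = emb L H T (m + ind P) := by
  funext u
  refine Fin.addCases (fun u => ?_) (fun u => ?_) u
  · refine Fin.addCases (fun u => ?_) (fun u => ?_) u
    · have : (Fin.castAdd H (Fin.castAdd r u)) ∉ P.map ⟨mid L H, mid_injective L H⟩ := by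
        simp only [Finset.mem_map, Function.Embedding.coeFn_mk, not_exists, not_and]
        intro j _ hj
        have := congrArg Fin.val hj
        simp [mid] at this
        omega
      simp only [Pi.add_apply, ind, if_neg this]
      simp [emb]
    · have h1 : (Fin.castAdd H (Fin.natAdd L u)) = mid L H u := rfl
      have : (mid L H u) ∈ P.map ⟨mid L H, mid_injective L H⟩ ↔ u ∈ P := by
        simp only [Finset.mem_map, Function.Embedding.coeFn_mk]
        constructor
        · rintro ⟨j, hj, h⟩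
          rwa [← mid_injective L H h]
        · intro h; exact ⟨u, h, rfl⟩
      rw [h1, Pi.add_apply, emb_mid, emb_mid]
      simp [ind, this]
  · have : (Fin.natAdd (L + r) u) ∉ P.map ⟨mid L H, mid_injective L H⟩ := by
      simp only [Finset.mem_map, Function.Embedding.coeFn_mk, not_exists, not_and]
      intro j _ hj
      have := congrArg Fin.val hj
      simp [mid] at this
      omega
    simp [emb, ind, this]

theorem emb_single (L H T : ℕ) {r : ℕ} (m : Fin r → ℕ) (v : Fin r) :
    emb L H T m + Pi.single (mid L H v) 1 = emb L H T (m + Pi.single v 1) := by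
  have h1 : ∀ {n : ℕ} (w : Fin n), (Pi.single w 1 : Fin n → ℕ) = ind {w} := by
    intro n w
    funext u
    by_cases hu : u = w
    · subst hu; simp [ind]
    · simp [ind, hu]
  rw [h1, h1, ← emb_add]
  simp

theorem score_emb (L H T : ℕ) {r : ℕ} (a : Fin (L + r + H) → ℝ) :
    ∃ c : ℝ, ∀ m : Fin r → ℕ, (∀ j, m j ≤ T) →
      owaScore a (emb L H T m) = owaScore (win L H a) m + c := by
  refine ⟨owaScore (fun j => a (Fin.natAdd (L + r) j)) (fun _ : Fin H => T), ?_⟩
  intro m hm
  unfold emb
  rw [owaScore_append, owaScore_append]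
  · have h0 : ∀ (b : Fin L → ℝ), owaScore b (fun _ : Fin L => 0) = 0 := by
      intro b; simp [owaScore]
    rw [h0, zero_add]
    rfl
  · intro i j; exact Nat.zero_le _
  · intro i j
    refine Fin.addCases (fun u => ?_) (fun u => ?_) i
    · simp
    · simp [hm u]

theorem run_emb (L H T : ℕ) {r : ℕ} (a : Fin (L + r + H) → ℝ)
    (l : List (Finset (Fin r) × Finset (Fin r))) :
    ∀ m : Fin r → ℕ, (∀ j, m j + l.length ≤ T) →
      run a (emb L H T m) (l.map fun p => (p.1.map ⟨mid L H, mid_injective L H⟩,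
        p.2.map ⟨mid L H, mid_injective L H⟩)) = emb L H T (run (win L H a) m l) := by
  obtain ⟨c, hc⟩ := score_emb L H T a
  induction l with
  | nil => intro m _; rfl
  | cons p l ih =>
    intro m hm
    simp only [List.length_cons] at hm
    have hind : ∀ (P : Finset (Fin r)) j, ind P j ≤ 1 := by
      intro P j; unfold ind; split_ifs <;> simp
    have hs : step a (emb L H T m) (p.1.map ⟨mid L H, mid_injective L H⟩,
        p.2.map ⟨mid L H, mid_injective L H⟩) = emb L H T (step (win L H a) m p) := by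
      unfold step
      simp only
      rw [emb_add, emb_add, hc, hc]
      · by_cases h : owaScore (win L H a) (m + ind p.1) < owaScore (win L H a) (m + ind p.2)
        · rw [if_pos h, if_pos (by linarith)]
        · rw [if_neg h, if_neg (by linarith)]
      · intro j
        have := hm j
        have := hind p.2 j
        simp only [Pi.add_apply]; omega
      · intro j
        have := hm j
        have := hind p.1 j
        simp only [Pi.add_apply]; omega
    have hm' : ∀ j, step (win L H a) m p j + l.length ≤ T := by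
      intro j
      have h1 := hm j
      have h2 := hind p.1 j
      have h3 := hind p.2 j
      unfold step
      split_ifs
      · simp only [Pi.add_apply]; omega
      · simp only [Pi.add_apply]; omega
    have := ih (step (win L H a) m p) hm'
    unfold run at *
    rw [List.map_cons, List.foldl_cons, List.foldl_cons, hs, this]

theorem harmful_of_window (L H : ℕ) {r : ℕ} (a : Fin (L + r + H) → ℝ) (m : Fin r → ℕ) (v : Fin r)
    (l : List (Finset (Fin r) × Finset (Fin r)))
    (h : run (win L H a) m l v + 1 < run (win L H a) (m + Pi.single v 1) l v) :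
    ¬ NeverHarmfulFor (L + r + H) a := by
  have hT : ∀ j, m j ≤ ∑ j, m j := fun j =>
    Finset.single_le_sum (f := m) (fun _ _ => Nat.zero_le _) (Finset.mem_univ j)
  apply harmful_of_run a (emb L H (∑ j, m j + 1 + l.length) m) (mid L H v)
    (l.map fun p => (p.1.map ⟨mid L H, mid_injective L H⟩, p.2.map ⟨mid L H, mid_injective L H⟩))
  rw [run_emb, emb_single, run_emb, emb_mid, emb_mid]
  · exact h
  · intro j
    have := hT j
    have h2 : (Pi.single v 1 : Fin r → ℕ) j ≤ 1 := by
      by_cases hj : j = v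
      · subst hj; simp
      · simp [hj]
    simp only [Pi.add_apply]; omega
  · intro j
    have := hT j
    omega

theorem score_of_inj {r : ℕ} (w : Fin r → ℝ) (x : Fin r → ℕ) (f : Fin r → Fin r)
    (hf : ∀ i j, f i = f j → i = j) (hm : ∀ i j, i ≤ j → x (f i) ≤ x (f j)) :
    owaScore w x = ∑ j, w j * (x (f j) : ℝ) :=
  owaScore_eq w x (Equiv.ofBijective f (Finite.injective_iff_bijective.1 fun i j h => hf i j h))
    fun i j hij => hm i j hij

theorem step_fst {r : ℕ} (w : Fin r → ℝ) (x y z : Fin r → ℕ) (P Q : Finset (Fin r))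
    (hy : x + ind P = y) (hz : x + ind Q = z) (h : owaScore w z ≤ owaScore w y) :
    step w x (P, Q) = y := by
  unfold step
  simp only [hy, hz]
  rw [if_neg (not_lt.2 h)]

theorem step_snd {r : ℕ} (w : Fin r → ℝ) (x y z : Fin r → ℕ) (P Q : Finset (Fin r))
    (hy : x + ind P = y) (hz : x + ind Q = z) (h : owaScore w y < owaScore w z) :
    step w x (P, Q) = z := by
  unfold step
  simp only [hy, hz]
  rw [if_pos h]

theorem run_cons {r : ℕ} (w : Fin r → ℝ) (x y : Fin r → ℕ) (p : Finset (Fin r) × Finset (Fin r))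
    (l : List (Finset (Fin r) × Finset (Fin r))) (h : step w x p = y) :
    run w x (p :: l) = run w y l := by
  unfold run; rw [List.foldl_cons, h]

theorem harm_two (w : Fin 2 → ℝ) (h : w 0 < w 1) :
    ∃ (m : Fin 2 → ℕ) (v : Fin 2) (l : List (Finset (Fin 2) × Finset (Fin 2))),
      run w m l v + 1 < run w (m + Pi.single v 1) l v := by
  have e0 : owaScore w (![1, 1] : Fin 2 → ℕ) = w 0 + w 1 := by
    rw [score_of_inj w _ ![0, 1] (by decide) (by decide)]; simp [Fin.sum_univ_two]; try ring
  have e1 : owaScore w (![2, 0] : Fin 2 → ℕ) = 2 * w 1 := by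
    rw [score_of_inj w _ ![1, 0] (by decide) (by decide)]; simp [Fin.sum_univ_two]; try ring
  have e2 : owaScore w (![0, 1] : Fin 2 → ℕ) = w 1 := by
    rw [score_of_inj w _ ![0, 1] (by decide) (by decide)]; simp [Fin.sum_univ_two]; try ring
  have e3 : owaScore w (![1, 0] : Fin 2 → ℕ) = w 1 := by
    rw [score_of_inj w _ ![1, 0] (by decide) (by decide)]; simp [Fin.sum_univ_two]; try ring
  refine ⟨![0, 0], 0, [({1}, {0})], ?_⟩
  have h0 : (![0, 0] + Pi.single 0 1 : Fin 2 → ℕ) = ![1, 0] := by decide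
  rw [h0]
  have hE : run w ![1, 0] [({1}, {0})] = ![2, 0] := by
    rw [run_cons w ![1, 0] ![2, 0] _ _ (step_snd w ![1, 0] ![1, 1] ![2, 0] {1} {0} (by decide) (by decide) (by rw [e0, e1]; linarith))]
    rfl
  have hS : run w ![0, 0] [({1}, {0})] = ![0, 1] := by
    rw [run_cons w ![0, 0] ![0, 1] _ _ (step_fst w ![0, 0] ![0, 1] ![1, 0] {1} {0} (by decide) (by decide) (by rw [e3, e2]))]
    rfl
  rw [hE, hS]; decide

theorem harm_b1 (w : Fin 3 → ℝ) (h0 : w 1 < w 0) (h1 : w 1 = w 2) :
    ∃ (m : Fin 3 → ℕ) (v : Fin 3) (l : List (Finset (Fin 3) × Finset (Fin 3))),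
      run w m l v + 1 < run w (m + Pi.single v 1) l v := by
  have e0 : owaScore w (![1, 0, 2] : Fin 3 → ℕ) = w 1 + 2 * w 2 := by
    rw [score_of_inj w _ ![1, 0, 2] (by decide) (by decide)]; simp [Fin.sum_univ_three]; try ring
  have e1 : owaScore w (![1, 1, 1] : Fin 3 → ℕ) = w 0 + w 1 + w 2 := by
    rw [score_of_inj w _ ![0, 1, 2] (by decide) (by decide)]; simp [Fin.sum_univ_three]; try ring
  have e2 : owaScore w (![2, 1, 1] : Fin 3 → ℕ) = w 0 + w 1 + 2 * w 2 := by
    rw [score_of_inj w _ ![1, 2, 0] (by decide) (by decide)]; simp [Fin.sum_univ_three]; try ring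
  have e3 : owaScore w (![3, 1, 1] : Fin 3 → ℕ) = w 0 + w 1 + 3 * w 2 := by
    rw [score_of_inj w _ ![1, 2, 0] (by decide) (by decide)]; simp [Fin.sum_univ_three]; try ring
  have e4 : owaScore w (![2, 2, 1] : Fin 3 → ℕ) = w 0 + 2 * w 1 + 2 * w 2 := by
    rw [score_of_inj w _ ![2, 0, 1] (by decide) (by decide)]; simp [Fin.sum_univ_three]; try ring
  have e5 : owaScore w (![0, 0, 2] : Fin 3 → ℕ) = 2 * w 2 := by
    rw [score_of_inj w _ ![0, 1, 2] (by decide) (by decide)]; simp [Fin.sum_univ_three]; try ring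
  have e6 : owaScore w (![0, 1, 1] : Fin 3 → ℕ) = w 1 + w 2 := by
    rw [score_of_inj w _ ![0, 1, 2] (by decide) (by decide)]; simp [Fin.sum_univ_three]; try ring
  have e7 : owaScore w (![2, 0, 2] : Fin 3 → ℕ) = 2 * w 1 + 2 * w 2 := by
    rw [score_of_inj w _ ![1, 0, 2] (by decide) (by decide)]; simp [Fin.sum_univ_three]; try ring
  have e8 : owaScore w (![1, 1, 2] : Fin 3 → ℕ) = w 0 + w 1 + 2 * w 2 := by
    rw [score_of_inj w _ ![0, 1, 2] (by decide) (by decide)]; simp [Fin.sum_univ_three]; try ring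
  refine ⟨![0, 0, 1], 0, [({2}, {1}), ({0}, {0}), ({0}, {1})], ?_⟩
  have h0 : (![0, 0, 1] + Pi.single 0 1 : Fin 3 → ℕ) = ![1, 0, 1] := by decide
  rw [h0]
  have hE : run w ![1, 0, 1] [({2}, {1}), ({0}, {0}), ({0}, {1})] = ![3, 1, 1] := by
    rw [run_cons w ![1, 0, 1] ![1, 1, 1] _ _ (step_snd w ![1, 0, 1] ![1, 0, 2] ![1, 1, 1] {2} {1} (by decide) (by decide) (by rw [e0, e1]; linarith))]
    rw [run_cons w ![1, 1, 1] ![2, 1, 1] _ _ (step_fst w ![1, 1, 1] ![2, 1, 1] ![2, 1, 1] {0} {0} (by decide) (by decide) le_rfl)]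
    rw [run_cons w ![2, 1, 1] ![3, 1, 1] _ _ (step_fst w ![2, 1, 1] ![3, 1, 1] ![2, 2, 1] {0} {1} (by decide) (by decide) (by rw [e4, e3]; linarith))]
    rfl
  have hS : run w ![0, 0, 1] [({2}, {1}), ({0}, {0}), ({0}, {1})] = ![1, 1, 2] := by
    rw [run_cons w ![0, 0, 1] ![0, 0, 2] _ _ (step_fst w ![0, 0, 1] ![0, 0, 2] ![0, 1, 1] {2} {1} (by decide) (by decide) (by rw [e6, e5]; linarith))]
    rw [run_cons w ![0, 0, 2] ![1, 0, 2] _ _ (step_fst w ![0, 0, 2] ![1, 0, 2] ![1, 0, 2] {0} {0} (by decide) (by decide) le_rfl)]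
    rw [run_cons w ![1, 0, 2] ![1, 1, 2] _ _ (step_snd w ![1, 0, 2] ![2, 0, 2] ![1, 1, 2] {0} {1} (by decide) (by decide) (by rw [e7, e8]; linarith))]
    rfl
  rw [hE, hS]; decide

theorem harm_b2 (w : Fin 3 → ℝ) (h0 : w 0 = w 1) (h1 : w 2 < w 1) :
    ∃ (m : Fin 3 → ℕ) (v : Fin 3) (l : List (Finset (Fin 3) × Finset (Fin 3))),
      run w m l v + 1 < run w (m + Pi.single v 1) l v := by
  have e0 : owaScore w (![2, 0, 2] : Fin 3 → ℕ) = 2 * w 1 + 2 * w 2 := by
    rw [score_of_inj w _ ![1, 0, 2] (by decide) (by decide)]; simp [Fin.sum_univ_three]; try ring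
  have e1 : owaScore w (![2, 1, 1] : Fin 3 → ℕ) = w 0 + w 1 + 2 * w 2 := by
    rw [score_of_inj w _ ![1, 2, 0] (by decide) (by decide)]; simp [Fin.sum_univ_three]; try ring
  have e2 : owaScore w (![2, 1, 3] : Fin 3 → ℕ) = w 0 + 2 * w 1 + 3 * w 2 := by
    rw [score_of_inj w _ ![1, 0, 2] (by decide) (by decide)]; simp [Fin.sum_univ_three]; try ring
  have e3 : owaScore w (![2, 2, 4] : Fin 3 → ℕ) = 2 * w 0 + 2 * w 1 + 4 * w 2 := by
    rw [score_of_inj w _ ![0, 1, 2] (by decide) (by decide)]; simp [Fin.sum_univ_three]; try ring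
  have e4 : owaScore w (![3, 2, 3] : Fin 3 → ℕ) = 2 * w 0 + 3 * w 1 + 3 * w 2 := by
    rw [score_of_inj w _ ![1, 0, 2] (by decide) (by decide)]; simp [Fin.sum_univ_three]; try ring
  have e5 : owaScore w (![1, 0, 2] : Fin 3 → ℕ) = w 1 + 2 * w 2 := by
    rw [score_of_inj w _ ![1, 0, 2] (by decide) (by decide)]; simp [Fin.sum_univ_three]; try ring
  have e6 : owaScore w (![1, 1, 1] : Fin 3 → ℕ) = w 0 + w 1 + w 2 := by
    rw [score_of_inj w _ ![0, 1, 2] (by decide) (by decide)]; simp [Fin.sum_univ_three]; try ring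
  have e7 : owaScore w (![1, 2, 2] : Fin 3 → ℕ) = w 0 + 2 * w 1 + 2 * w 2 := by
    rw [score_of_inj w _ ![0, 1, 2] (by decide) (by decide)]; simp [Fin.sum_univ_three]; try ring
  have e8 : owaScore w (![1, 3, 3] : Fin 3 → ℕ) = w 0 + 3 * w 1 + 3 * w 2 := by
    rw [score_of_inj w _ ![0, 1, 2] (by decide) (by decide)]; simp [Fin.sum_univ_three]; try ring
  have e9 : owaScore w (![2, 3, 2] : Fin 3 → ℕ) = 2 * w 0 + 2 * w 1 + 3 * w 2 := by
    rw [score_of_inj w _ ![0, 2, 1] (by decide) (by decide)]; simp [Fin.sum_univ_three]; try ring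
  refine ⟨![0, 0, 1], 0, [({0, 2}, {0, 1}), ({1, 2}, {1, 2}), ({1, 2}, {0, 1})], ?_⟩
  have h0 : (![0, 0, 1] + Pi.single 0 1 : Fin 3 → ℕ) = ![1, 0, 1] := by decide
  rw [h0]
  have hE : run w ![1, 0, 1] [({0, 2}, {0, 1}), ({1, 2}, {1, 2}), ({1, 2}, {0, 1})] = ![3, 2, 3] := by
    rw [run_cons w ![1, 0, 1] ![2, 0, 2] _ _ (step_fst w ![1, 0, 1] ![2, 0, 2] ![2, 1, 1] {0, 2} {0, 1} (by decide) (by decide) (by rw [e1, e0]; linarith))]
    rw [run_cons w ![2, 0, 2] ![2, 1, 3] _ _ (step_fst w ![2, 0, 2] ![2, 1, 3] ![2, 1, 3] {1, 2} {1, 2} (by decide) (by decide) le_rfl)]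
    rw [run_cons w ![2, 1, 3] ![3, 2, 3] _ _ (step_snd w ![2, 1, 3] ![2, 2, 4] ![3, 2, 3] {1, 2} {0, 1} (by decide) (by decide) (by rw [e3, e4]; linarith))]
    rfl
  have hS : run w ![0, 0, 1] [({0, 2}, {0, 1}), ({1, 2}, {1, 2}), ({1, 2}, {0, 1})] = ![1, 3, 3] := by
    rw [run_cons w ![0, 0, 1] ![1, 1, 1] _ _ (step_snd w ![0, 0, 1] ![1, 0, 2] ![1, 1, 1] {0, 2} {0, 1} (by decide) (by decide) (by rw [e5, e6]; linarith))]
    rw [run_cons w ![1, 1, 1] ![1, 2, 2] _ _ (step_fst w ![1, 1, 1] ![1, 2, 2] ![1, 2, 2] {1, 2} {1, 2} (by decide) (by decide) le_rfl)]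
    rw [run_cons w ![1, 2, 2] ![1, 3, 3] _ _ (step_fst w ![1, 2, 2] ![1, 3, 3] ![2, 3, 2] {1, 2} {0, 1} (by decide) (by decide) (by rw [e9, e8]; linarith))]
    rfl
  rw [hE, hS]; decide

theorem harm_b3 (w : Fin 3 → ℝ) (h0 : w 1 < w 0) (h1 : w 2 < w 1) (h2 : w 1 + w 2 ≤ w 0)
    (h3 : 0 < w 2) :
    ∃ (m : Fin 3 → ℕ) (v : Fin 3) (l : List (Finset (Fin 3) × Finset (Fin 3))),
      run w m l v + 1 < run w (m + Pi.single v 1) l v := by
  have e0 : owaScore w (![2, 0, 1] : Fin 3 → ℕ) = w 1 + 2 * w 2 := by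
    rw [score_of_inj w _ ![1, 2, 0] (by decide) (by decide)]; simp [Fin.sum_univ_three]; try ring
  have e1 : owaScore w (![1, 1, 1] : Fin 3 → ℕ) = w 0 + w 1 + w 2 := by
    rw [score_of_inj w _ ![0, 1, 2] (by decide) (by decide)]; simp [Fin.sum_univ_three]; try ring
  have e2 : owaScore w (![1, 2, 1] : Fin 3 → ℕ) = w 0 + w 1 + 2 * w 2 := by
    rw [score_of_inj w _ ![0, 2, 1] (by decide) (by decide)]; simp [Fin.sum_univ_three]; try ring
  have e3 : owaScore w (![2, 1, 2] : Fin 3 → ℕ) = w 0 + 2 * w 1 + 2 * w 2 := by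
    rw [score_of_inj w _ ![1, 0, 2] (by decide) (by decide)]; simp [Fin.sum_univ_three]; try ring
  have e4 : owaScore w (![3, 1, 3] : Fin 3 → ℕ) = w 0 + 3 * w 1 + 3 * w 2 := by
    rw [score_of_inj w _ ![1, 0, 2] (by decide) (by decide)]; simp [Fin.sum_univ_three]; try ring
  have e5 : owaScore w (![3, 2, 2] : Fin 3 → ℕ) = 2 * w 0 + 2 * w 1 + 3 * w 2 := by
    rw [score_of_inj w _ ![1, 2, 0] (by decide) (by decide)]; simp [Fin.sum_univ_three]; try ring
  have e6 : owaScore w (![3, 3, 2] : Fin 3 → ℕ) = 2 * w 0 + 3 * w 1 + 3 * w 2 := by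
    rw [score_of_inj w _ ![2, 0, 1] (by decide) (by decide)]; simp [Fin.sum_univ_three]; try ring
  have e7 : owaScore w (![4, 2, 3] : Fin 3 → ℕ) = 2 * w 0 + 3 * w 1 + 4 * w 2 := by
    rw [score_of_inj w _ ![1, 2, 0] (by decide) (by decide)]; simp [Fin.sum_univ_three]; try ring
  have e8 : owaScore w (![1, 0, 1] : Fin 3 → ℕ) = w 1 + w 2 := by
    rw [score_of_inj w _ ![1, 0, 2] (by decide) (by decide)]; simp [Fin.sum_univ_three]; try ring
  have e9 : owaScore w (![0, 1, 1] : Fin 3 → ℕ) = w 1 + w 2 := by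
    rw [score_of_inj w _ ![0, 1, 2] (by decide) (by decide)]; simp [Fin.sum_univ_three]; try ring
  have e10 : owaScore w (![2, 0, 2] : Fin 3 → ℕ) = 2 * w 1 + 2 * w 2 := by
    rw [score_of_inj w _ ![1, 0, 2] (by decide) (by decide)]; simp [Fin.sum_univ_three]; try ring
  have e11 : owaScore w (![2, 2, 1] : Fin 3 → ℕ) = w 0 + 2 * w 1 + 2 * w 2 := by
    rw [score_of_inj w _ ![2, 0, 1] (by decide) (by decide)]; simp [Fin.sum_univ_three]; try ring
  have e12 : owaScore w (![2, 2, 2] : Fin 3 → ℕ) = 2 * w 0 + 2 * w 1 + 2 * w 2 := by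
    rw [score_of_inj w _ ![0, 1, 2] (by decide) (by decide)]; simp [Fin.sum_univ_three]; try ring
  refine ⟨![0, 0, 0], 0, [({0, 2}, {1, 2}), ({1}, {0, 2}), ({0, 2}, {0, 1}), ({1}, {0, 2})], ?_⟩
  have h0 : (![0, 0, 0] + Pi.single 0 1 : Fin 3 → ℕ) = ![1, 0, 0] := by decide
  rw [h0]
  have hE : run w ![1, 0, 0] [({0, 2}, {1, 2}), ({1}, {0, 2}), ({0, 2}, {0, 1}), ({1}, {0, 2})] = ![4, 2, 3] := by
    rw [run_cons w ![1, 0, 0] ![1, 1, 1] _ _ (step_snd w ![1, 0, 0] ![2, 0, 1] ![1, 1, 1] {0, 2} {1, 2} (by decide) (by decide) (by rw [e0, e1]; linarith))]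
    rw [run_cons w ![1, 1, 1] ![2, 1, 2] _ _ (step_snd w ![1, 1, 1] ![1, 2, 1] ![2, 1, 2] {1} {0, 2} (by decide) (by decide) (by rw [e2, e3]; linarith))]
    rw [run_cons w ![2, 1, 2] ![3, 2, 2] _ _ (step_snd w ![2, 1, 2] ![3, 1, 3] ![3, 2, 2] {0, 2} {0, 1} (by decide) (by decide) (by rw [e4, e5]; linarith))]
    rw [run_cons w ![3, 2, 2] ![4, 2, 3] _ _ (step_snd w ![3, 2, 2] ![3, 3, 2] ![4, 2, 3] {1} {0, 2} (by decide) (by decide) (by rw [e6, e7]; linarith))]
    rfl
  have hS : run w ![0, 0, 0] [({0, 2}, {1, 2}), ({1}, {0, 2}), ({0, 2}, {0, 1}), ({1}, {0, 2})] = ![2, 2, 2] := by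
    rw [run_cons w ![0, 0, 0] ![1, 0, 1] _ _ (step_fst w ![0, 0, 0] ![1, 0, 1] ![0, 1, 1] {0, 2} {1, 2} (by decide) (by decide) (by rw [e9, e8]))]
    rw [run_cons w ![1, 0, 1] ![1, 1, 1] _ _ (step_fst w ![1, 0, 1] ![1, 1, 1] ![2, 0, 2] {1} {0, 2} (by decide) (by decide) (by rw [e10, e1]; linarith))]
    rw [run_cons w ![1, 1, 1] ![2, 1, 2] _ _ (step_fst w ![1, 1, 1] ![2, 1, 2] ![2, 2, 1] {0, 2} {0, 1} (by decide) (by decide) (by rw [e11, e3]))]
    rw [run_cons w ![2, 1, 2] ![2, 2, 2] _ _ (step_fst w ![2, 1, 2] ![2, 2, 2] ![3, 1, 3] {1} {0, 2} (by decide) (by decide) (by rw [e4, e12]; linarith))]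
    rfl
  rw [hE, hS]; decide

theorem harm_b4 (w : Fin 3 → ℝ) (h0 : w 1 < w 0) (h1 : w 2 < w 1) (h3 : w 2 = 0) :
    ∃ (m : Fin 3 → ℕ) (v : Fin 3) (l : List (Finset (Fin 3) × Finset (Fin 3))),
      run w m l v + 1 < run w (m + Pi.single v 1) l v := by
  have e0 : owaScore w (![2, 0, 1] : Fin 3 → ℕ) = w 1 + 2 * w 2 := by
    rw [score_of_inj w _ ![1, 2, 0] (by decide) (by decide)]; simp [Fin.sum_univ_three]; try ring
  have e1 : owaScore w (![1, 1, 1] : Fin 3 → ℕ) = w 0 + w 1 + w 2 := by
    rw [score_of_inj w _ ![0, 1, 2] (by decide) (by decide)]; simp [Fin.sum_univ_three]; try ring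
  have e2 : owaScore w (![1, 2, 1] : Fin 3 → ℕ) = w 0 + w 1 + 2 * w 2 := by
    rw [score_of_inj w _ ![0, 2, 1] (by decide) (by decide)]; simp [Fin.sum_univ_three]; try ring
  have e3 : owaScore w (![2, 1, 2] : Fin 3 → ℕ) = w 0 + 2 * w 1 + 2 * w 2 := by
    rw [score_of_inj w _ ![1, 0, 2] (by decide) (by decide)]; simp [Fin.sum_univ_three]; try ring
  have e4 : owaScore w (![3, 1, 3] : Fin 3 → ℕ) = w 0 + 3 * w 1 + 3 * w 2 := by
    rw [score_of_inj w _ ![1, 0, 2] (by decide) (by decide)]; simp [Fin.sum_univ_three]; try ring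
  have e5 : owaScore w (![3, 2, 2] : Fin 3 → ℕ) = 2 * w 0 + 2 * w 1 + 3 * w 2 := by
    rw [score_of_inj w _ ![1, 2, 0] (by decide) (by decide)]; simp [Fin.sum_univ_three]; try ring
  have e6 : owaScore w (![4, 2, 3] : Fin 3 → ℕ) = 2 * w 0 + 3 * w 1 + 4 * w 2 := by
    rw [score_of_inj w _ ![1, 2, 0] (by decide) (by decide)]; simp [Fin.sum_univ_three]; try ring
  have e7 : owaScore w (![3, 3, 2] : Fin 3 → ℕ) = 2 * w 0 + 3 * w 1 + 3 * w 2 := by
    rw [score_of_inj w _ ![2, 0, 1] (by decide) (by decide)]; simp [Fin.sum_univ_three]; try ring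
  have e8 : owaScore w (![1, 0, 1] : Fin 3 → ℕ) = w 1 + w 2 := by
    rw [score_of_inj w _ ![1, 0, 2] (by decide) (by decide)]; simp [Fin.sum_univ_three]; try ring
  have e9 : owaScore w (![0, 1, 1] : Fin 3 → ℕ) = w 1 + w 2 := by
    rw [score_of_inj w _ ![0, 1, 2] (by decide) (by decide)]; simp [Fin.sum_univ_three]; try ring
  have e10 : owaScore w (![2, 0, 2] : Fin 3 → ℕ) = 2 * w 1 + 2 * w 2 := by
    rw [score_of_inj w _ ![1, 0, 2] (by decide) (by decide)]; simp [Fin.sum_univ_three]; try ring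
  have e11 : owaScore w (![2, 2, 1] : Fin 3 → ℕ) = w 0 + 2 * w 1 + 2 * w 2 := by
    rw [score_of_inj w _ ![2, 0, 1] (by decide) (by decide)]; simp [Fin.sum_univ_three]; try ring
  have e12 : owaScore w (![2, 2, 2] : Fin 3 → ℕ) = 2 * w 0 + 2 * w 1 + 2 * w 2 := by
    rw [score_of_inj w _ ![0, 1, 2] (by decide) (by decide)]; simp [Fin.sum_univ_three]; try ring
  refine ⟨![0, 0, 0], 0, [({0, 2}, {1, 2}), ({1}, {0, 2}), ({0, 2}, {0, 1}), ({0, 2}, {1})], ?_⟩
  have h0 : (![0, 0, 0] + Pi.single 0 1 : Fin 3 → ℕ) = ![1, 0, 0] := by decide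
  rw [h0]
  have hE : run w ![1, 0, 0] [({0, 2}, {1, 2}), ({1}, {0, 2}), ({0, 2}, {0, 1}), ({0, 2}, {1})] = ![4, 2, 3] := by
    rw [run_cons w ![1, 0, 0] ![1, 1, 1] _ _ (step_snd w ![1, 0, 0] ![2, 0, 1] ![1, 1, 1] {0, 2} {1, 2} (by decide) (by decide) (by rw [e0, e1]; linarith))]
    rw [run_cons w ![1, 1, 1] ![2, 1, 2] _ _ (step_snd w ![1, 1, 1] ![1, 2, 1] ![2, 1, 2] {1} {0, 2} (by decide) (by decide) (by rw [e2, e3]; linarith))]
    rw [run_cons w ![2, 1, 2] ![3, 2, 2] _ _ (step_snd w ![2, 1, 2] ![3, 1, 3] ![3, 2, 2] {0, 2} {0, 1} (by decide) (by decide) (by rw [e4, e5]; linarith))]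
    rw [run_cons w ![3, 2, 2] ![4, 2, 3] _ _ (step_fst w ![3, 2, 2] ![4, 2, 3] ![3, 3, 2] {0, 2} {1} (by decide) (by decide) (by rw [e7, e6]; linarith))]
    rfl
  have hS : run w ![0, 0, 0] [({0, 2}, {1, 2}), ({1}, {0, 2}), ({0, 2}, {0, 1}), ({0, 2}, {1})] = ![2, 2, 2] := by
    rw [run_cons w ![0, 0, 0] ![1, 0, 1] _ _ (step_fst w ![0, 0, 0] ![1, 0, 1] ![0, 1, 1] {0, 2} {1, 2} (by decide) (by decide) (by rw [e9, e8]))]
    rw [run_cons w ![1, 0, 1] ![1, 1, 1] _ _ (step_fst w ![1, 0, 1] ![1, 1, 1] ![2, 0, 2] {1} {0, 2} (by decide) (by decide) (by rw [e10, e1]; linarith))]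
    rw [run_cons w ![1, 1, 1] ![2, 1, 2] _ _ (step_fst w ![1, 1, 1] ![2, 1, 2] ![2, 2, 1] {0, 2} {0, 1} (by decide) (by decide) (by rw [e11, e3]))]
    rw [run_cons w ![2, 1, 2] ![2, 2, 2] _ _ (step_snd w ![2, 1, 2] ![3, 1, 3] ![2, 2, 2] {0, 2} {1} (by decide) (by decide) (by rw [e4, e12]; linarith))]
    rfl
  rw [hE, hS]; decide

theorem harm_c (w : Fin 4 → ℝ) (h0 : w 1 < w 0) (h1 : w 2 < w 1) (h2 : w 3 < w 2) :
    ∃ (m : Fin 4 → ℕ) (v : Fin 4) (l : List (Finset (Fin 4) × Finset (Fin 4))),
      run w m l v + 1 < run w (m + Pi.single v 1) l v := by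
  have e0 : owaScore w (![2, 1, 0, 0] : Fin 4 → ℕ) = w 2 + 2 * w 3 := by
    rw [score_of_inj w _ ![2, 3, 1, 0] (by decide) (by decide)]; simp [Fin.sum_univ_four]; try ring
  have e1 : owaScore w (![1, 0, 1, 1] : Fin 4 → ℕ) = w 1 + w 2 + w 3 := by
    rw [score_of_inj w _ ![1, 0, 2, 3] (by decide) (by decide)]; simp [Fin.sum_univ_four]; try ring
  have e2 : owaScore w (![2, 0, 1, 2] : Fin 4 → ℕ) = w 1 + 2 * w 2 + 2 * w 3 := by
    rw [score_of_inj w _ ![1, 2, 0, 3] (by decide) (by decide)]; simp [Fin.sum_univ_four]; try ring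
  have e3 : owaScore w (![1, 0, 2, 2] : Fin 4 → ℕ) = w 1 + 2 * w 2 + 2 * w 3 := by
    rw [score_of_inj w _ ![1, 0, 2, 3] (by decide) (by decide)]; simp [Fin.sum_univ_four]; try ring
  have e4 : owaScore w (![2, 0, 2, 3] : Fin 4 → ℕ) = 2 * w 1 + 2 * w 2 + 3 * w 3 := by
    rw [score_of_inj w _ ![1, 0, 2, 3] (by decide) (by decide)]; simp [Fin.sum_univ_four]; try ring
  have e5 : owaScore w (![3, 1, 1, 2] : Fin 4 → ℕ) = w 0 + w 1 + 2 * w 2 + 3 * w 3 := by
    rw [score_of_inj w _ ![1, 2, 3, 0] (by decide) (by decide)]; simp [Fin.sum_univ_four]; try ring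
  have e6 : owaScore w (![1, 1, 0, 0] : Fin 4 → ℕ) = w 2 + w 3 := by
    rw [score_of_inj w _ ![2, 3, 0, 1] (by decide) (by decide)]; simp [Fin.sum_univ_four]; try ring
  have e7 : owaScore w (![0, 0, 1, 1] : Fin 4 → ℕ) = w 2 + w 3 := by
    rw [score_of_inj w _ ![0, 1, 2, 3] (by decide) (by decide)]; simp [Fin.sum_univ_four]; try ring
  have e8 : owaScore w (![2, 1, 0, 1] : Fin 4 → ℕ) = w 1 + w 2 + 2 * w 3 := by
    rw [score_of_inj w _ ![2, 1, 3, 0] (by decide) (by decide)]; simp [Fin.sum_univ_four]; try ring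
  have e9 : owaScore w (![1, 1, 1, 1] : Fin 4 → ℕ) = w 0 + w 1 + w 2 + w 3 := by
    rw [score_of_inj w _ ![0, 1, 2, 3] (by decide) (by decide)]; simp [Fin.sum_univ_four]; try ring
  have e10 : owaScore w (![1, 1, 2, 2] : Fin 4 → ℕ) = w 0 + w 1 + 2 * w 2 + 2 * w 3 := by
    rw [score_of_inj w _ ![0, 1, 2, 3] (by decide) (by decide)]; simp [Fin.sum_univ_four]; try ring
  have e11 : owaScore w (![2, 2, 1, 1] : Fin 4 → ℕ) = w 0 + w 1 + 2 * w 2 + 2 * w 3 := by
    rw [score_of_inj w _ ![2, 3, 0, 1] (by decide) (by decide)]; simp [Fin.sum_univ_four]; try ring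
  refine ⟨![0, 0, 0, 0], 0, [({0, 1}, {2, 3}), ({0, 3}, {2, 3}), ({2, 3}, {0, 1})], ?_⟩
  have h0 : (![0, 0, 0, 0] + Pi.single 0 1 : Fin 4 → ℕ) = ![1, 0, 0, 0] := by decide
  rw [h0]
  have hE : run w ![1, 0, 0, 0] [({0, 1}, {2, 3}), ({0, 3}, {2, 3}), ({2, 3}, {0, 1})] = ![3, 1, 1, 2] := by
    rw [run_cons w ![1, 0, 0, 0] ![1, 0, 1, 1] _ _ (step_snd w ![1, 0, 0, 0] ![2, 1, 0, 0] ![1, 0, 1, 1] {0, 1} {2, 3} (by decide) (by decide) (by rw [e0, e1]; linarith))]
    rw [run_cons w ![1, 0, 1, 1] ![2, 0, 1, 2] _ _ (step_fst w ![1, 0, 1, 1] ![2, 0, 1, 2] ![1, 0, 2, 2] {0, 3} {2, 3} (by decide) (by decide) (by rw [e3, e2]))]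
    rw [run_cons w ![2, 0, 1, 2] ![3, 1, 1, 2] _ _ (step_snd w ![2, 0, 1, 2] ![2, 0, 2, 3] ![3, 1, 1, 2] {2, 3} {0, 1} (by decide) (by decide) (by rw [e4, e5]; linarith))]
    rfl
  have hS : run w ![0, 0, 0, 0] [({0, 1}, {2, 3}), ({0, 3}, {2, 3}), ({2, 3}, {0, 1})] = ![1, 1, 2, 2] := by
    rw [run_cons w ![0, 0, 0, 0] ![1, 1, 0, 0] _ _ (step_fst w ![0, 0, 0, 0] ![1, 1, 0, 0] ![0, 0, 1, 1] {0, 1} {2, 3} (by decide) (by decide) (by rw [e7, e6]))]
    rw [run_cons w ![1, 1, 0, 0] ![1, 1, 1, 1] _ _ (step_snd w ![1, 1, 0, 0] ![2, 1, 0, 1] ![1, 1, 1, 1] {0, 3} {2, 3} (by decide) (by decide) (by rw [e8, e9]; linarith))]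
    rw [run_cons w ![1, 1, 1, 1] ![1, 1, 2, 2] _ _ (step_fst w ![1, 1, 1, 1] ![1, 1, 2, 2] ![2, 2, 1, 1] {2, 3} {0, 1} (by decide) (by decide) (by rw [e11, e10]))]
    rfl
  rw [hE, hS]; decide

end Harm

/-! ### The characterisation -/

section Main

theorem never_window {n : ℕ} (a : Fin n → ℝ) (h : NeverHarmfulFor n a) (L r : ℕ) (hL : L + r ≤ n)
    (m : Fin r → ℕ) (v : Fin r) (l : List (Finset (Fin r) × Finset (Fin r)))
    (hrun : run (fun j : Fin r => a ⟨L + j, by omega⟩) m l v + 1 <
      run (fun j : Fin r => a ⟨L + j, by omega⟩) (m + Pi.single v 1) l v) : False := by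
  obtain ⟨H, rfl⟩ : ∃ H, n = L + r + H := ⟨n - (L + r), by omega⟩
  exact harmful_of_window L H a m v l hrun h

theorem adjacent {n : ℕ} (a : Fin n → ℝ) (h : NeverHarmfulFor n a) (L : ℕ) (hL : L + 2 ≤ n) :
    a ⟨L + 1, by omega⟩ ≤ a ⟨L, by omega⟩ := by
  by_contra hlt
  push Not at hlt
  obtain ⟨m, v, l, hr⟩ := harm_two (fun j : Fin 2 => a ⟨L + j, by omega⟩) (by simpa using hlt)
  exact never_window a h L 2 hL m v l hr

theorem triple {n : ℕ} (a : Fin n → ℝ) (hnn : ∀ j, 0 ≤ a j) (h : NeverHarmfulFor n a) (L : ℕ)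
    (hL : L + 3 ≤ n) :
    (a ⟨L, by omega⟩ = a ⟨L + 1, by omega⟩ ∧ a ⟨L + 1, by omega⟩ = a ⟨L + 2, by omega⟩) ∨
    (a ⟨L + 1, by omega⟩ < a ⟨L, by omega⟩ ∧ a ⟨L + 2, by omega⟩ < a ⟨L + 1, by omega⟩ ∧
      a ⟨L, by omega⟩ < a ⟨L + 1, by omega⟩ + a ⟨L + 2, by omega⟩) := by
  have h1 := adjacent a h L (by omega)
  have h2 := adjacent a h (L + 1) (by omega)
  have hz := hnn ⟨L + 2, by omega⟩
  let w : Fin 3 → ℝ := fun j => a ⟨L + j, by omega⟩
  have w0 : w 0 = a ⟨L, by omega⟩ := rfl
  have w1 : w 1 = a ⟨L + 1, by omega⟩ := rfl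
  have w2 : w 2 = a ⟨L + 2, by omega⟩ := rfl
  rw [← w0, ← w1, ← w2] at *
  have h2' : w 2 ≤ w 1 := h2
  have key : ∀ (m : Fin 3 → ℕ) (v : Fin 3) (l : List (Finset (Fin 3) × Finset (Fin 3))),
      run w m l v + 1 < run w (m + Pi.single v 1) l v → False := fun m v l hr =>
    never_window a h L 3 hL m v l hr
  rcases h1.lt_or_eq with h3 | h3
  · rcases h2'.lt_or_eq with h4 | h4
    · right
      refine ⟨h3, h4, ?_⟩
      by_contra h5
      push Not at h5
      rcases hz.lt_or_eq with h6 | h6
      · obtain ⟨m, v, l, hr⟩ := harm_b3 w h3 h4 h5 h6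
        exact key m v l hr
      · obtain ⟨m, v, l, hr⟩ := harm_b4 w h3 h4 h6.symm
        exact key m v l hr
    · exfalso
      obtain ⟨m, v, l, hr⟩ := harm_b1 w h3 h4.symm
      exact key m v l hr
  · rcases h2'.lt_or_eq with h4 | h4
    · exfalso
      obtain ⟨m, v, l, hr⟩ := harm_b2 w h3.symm h4
      exact key m v l hr
    · left; exact ⟨h3.symm, h4.symm⟩

theorem quadruple {n : ℕ} (a : Fin n → ℝ) (hnn : ∀ j, 0 ≤ a j) (h : NeverHarmfulFor n a) (L : ℕ)
    (hL : L + 4 ≤ n) : a ⟨L, by omega⟩ = a ⟨L + 1, by omega⟩ ∧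
      a ⟨L + 1, by omega⟩ = a ⟨L + 2, by omega⟩ ∧ a ⟨L + 2, by omega⟩ = a ⟨L + 3, by omega⟩ := by
  have h1 := triple a hnn h L (by omega)
  have h2 := triple a hnn h (L + 1) (by omega)
  rcases h1 with ⟨h1, h1'⟩ | ⟨h1, h1', _⟩
  · rcases h2 with ⟨h2, h2'⟩ | ⟨h2, h2', _⟩
    · exact ⟨h1, h1', h2'⟩
    · exact absurd h1'.symm (ne_of_lt h2)
  · rcases h2 with ⟨h2, h2'⟩ | ⟨h2, h2', _⟩
    · exact absurd h2.symm (ne_of_lt h1')
    · exfalso
      obtain ⟨m, v, l, hr⟩ := harm_c (fun j : Fin 4 => a ⟨L + j, by omega⟩) h1 h1' h2'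
      exact never_window a h L 4 hL m v l hr

theorem const_of_four {n : ℕ} (a : Fin n → ℝ) (hnn : ∀ j, 0 ≤ a j) (h : NeverHarmfulFor n a)
    (hn : 4 ≤ n) (i j : Fin n) : a i = a j := by
  have key : ∀ (k : ℕ) (hk : k < n), a ⟨k, hk⟩ = a ⟨0, by omega⟩ := by
    intro k
    induction k with
    | zero => intro _; rfl
    | succ k ih =>
      intro hk
      rw [← ih (by omega)]
      by_cases h1 : k + 4 ≤ n
      · exact (quadruple a hnn h k h1).1.symm
      · by_cases h2 : k + 3 ≤ n
        · have h3 := (quadruple a hnn h (k - 1) (by omega)).2.1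
          have e1 : k - 1 + 1 = k := by omega
          have e2 : k - 1 + 2 = k + 1 := by omega
          simp only [e1, e2] at h3
          exact h3.symm
        · have h3 := (quadruple a hnn h (k - 2) (by omega)).2.2
          have e1 : k - 2 + 2 = k := by omega
          have e2 : k - 2 + 3 = k + 1 := by omega
          simp only [e1, e2] at h3
          exact h3.symm
  rw [key i i.2, key j j.2]

theorem main_iff (n : ℕ) (hn : 0 < n) (a : Fin n → ℝ) (hnn : ∀ j, 0 ≤ a j) :
    NeverHarmfulFor n a ↔ (∀ i j, a i = a j) ∨ (n = 2 ∧ StrictAnti a) ∨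
      (n = 3 ∧ StrictAnti a ∧ 2 * a ⟨0, hn⟩ < ∑ j, a j) := by
  constructor
  · intro h
    by_cases h4 : 4 ≤ n
    · left; exact const_of_four a hnn h h4
    · obtain rfl | rfl | rfl : n = 1 ∨ n = 2 ∨ n = 3 := by omega
      · left; intro i j; rw [Subsingleton.elim i j]
      · have h1 : a 1 ≤ a 0 := adjacent a h 0 (by omega)
        rcases h1.lt_or_eq with h2 | h2
        · right; left
          refine ⟨rfl, ?_⟩
          intro i j hij
          fin_cases i <;> fin_cases j <;> simp_all
        · left; intro i j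
          fin_cases i <;> fin_cases j <;> simp_all
      · have h1 : (a 0 = a 1 ∧ a 1 = a 2) ∨ (a 1 < a 0 ∧ a 2 < a 1 ∧ a 0 < a 1 + a 2) :=
          triple a hnn h 0 (by omega)
        rcases h1 with ⟨h2, h3⟩ | ⟨h2, h3, h5⟩
        · left; intro i j
          fin_cases i <;> fin_cases j <;> simp_all
        · right; right
          refine ⟨rfl, ?_, ?_⟩
          · intro i j hij
            fin_cases i <;> fin_cases j <;> simp_all
            linarith
          · rw [Fin.sum_univ_three]
            show 2 * a 0 < _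
            linarith
  · rintro (h | ⟨rfl, h⟩ | ⟨rfl, h, h'⟩)
    · exact never_const a h
    · exact never_two a (h (by decide)).le
    · refine never_three a h ?_
      rw [Fin.sum_univ_three] at h'
      have : 2 * a 0 < a 0 + a 1 + a 2 := h'
      linarith

end Main

end Pool.Agent.Lib.MP_57045c_lc
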